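import Pool.Agent.Lib.DU.IfaceC
import Pool.Agent.Lib.DU.O.O4
import Pool.Agent.Lib.DM.C.C17

/-!
# Part C for DU (`3` ramified): `S_C1`, `S_C2`, `S_C3`, `S_C4`, `S_C6`, `S_C7` (author helper33)

Modulus `3 f`, level `27 M`: `D (3 f)² = 27 (D/3) f²`.
-/

set_option autoImplicit false

open scoped Pointwise Topology nonZeroDivisors
open Filter

noncomputable section

namespace Pool.Agent.DM.DU

open Pool.Agent.MuZ Pool.Agent.FW NumberField IsDedekindDomain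
open Pool.Agent.DI (io ofC io_inj exists_io io_ofC ofC_io VP MP UP TP ex)
open Pool.Agent.DN

variable {n t : ℕ}

/-! ## The conditions -/

theorem IsLv.g [Ram3 n t] {f M : ℕ} {m : Ideal (OO n t)} {R : Finset (Ideal (OO n t))}
    (h : IsLv f m R M) : DS.IsLg (3 * f) m R (27 * M) := by
  have h1 := h.pos
  have h0 := Ram3.zero (n := n) (t := t)
  refine ⟨by omega, ?_⟩
  have e : DS.levg (3 * f) m R = 27 * lev f m R := by
    unfold DS.levg lev
    have h2 : Dk n t = 3 * (Dk n t / 3) := (Nat.mul_div_cancel' (Nat.dvd_of_mod_eq_zero h0)).symm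
    conv_lhs => rw [h2]
    ring
  rw [e]
  exact mul_dvd_mul_left 27 h.dvd

theorem IsLv.nm {f M : ℕ} {m : Ideal (OO n t)} {R : Finset (Ideal (OO n t))} (h : IsLv f m R M) :
    NI m ∣ M := by
  refine dvd_trans ?_ h.dvd
  refine Dvd.dvd.mul_left ?_ _
  exact dvd_trans (dvd_mul_right _ _) (dvd_pow_self _ (by norm_num))

theorem IsLv.f2 {f M : ℕ} {m : Ideal (OO n t)} {R : Finset (Ideal (OO n t))} (h : IsLv f m R M) :
    f ∣ M := by
  refine dvd_trans ?_ h.dvd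
  refine Dvd.dvd.mul_right ?_ _
  exact Dvd.dvd.mul_left (dvd_pow_self _ (by norm_num)) _

theorem lv_one {f M : ℕ} {m : Ideal (OO n t)} {R : Finset (Ideal (OO n t))} (hm : FM f m)
    (h : IsLv f m R M) : 1 < M := by
  have h7 := Nat.le_of_dvd h.pos h.f2
  have h8 := Nat.le_of_dvd hm.pos hm.dvd
  omega

/-! ## The statements -/

theorem tC1 (hR : DS.S_R1) : S_C1 := by
  intro n t _ f M m b hm hb hM a b' c d hG
  obtain ⟨h1, h2, -, -, h5, h6⟩ := gC1 hR n t (3 * f) (27 * M) m b hm.g hb.g hM.g a b' c d hG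
  refine ⟨h1, h2, ⟨h5.ne, h5.cop⟩, fun r hr => ?_⟩
  have hc : (M : ℤ) ∣ c := dvd_trans (Dvd.intro_left 27 rfl) hG.2
  have h7 := den_ne (lv_one hm hM) hG.1 hc hr
  exact ⟨h7, (h6 r (Nat.Coprime.coprime_dvd_right hM.nm hr) h7).2⟩

theorem tC2 (hR : DS.S_R1) : S_C2 := by
  intro n t _ f M m b hm hb hM a b' c d hG hd z hz
  refine gC2 hR n t (3 * f) (27 * M) m b hm.g hb.g hM.g a b' c d hG ?_ z hz
  push_cast
  exact hd

theorem tC3 (hR : DS.S_R1) : S_C3 := by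
  intro n t _ f M m b hm hb hM a b' c d hG
  exact gC3 hR n t (3 * f) (27 * M) m b hm.g hb.g hM.g a b' c d hG

theorem tC4 (hR : DS.S_R1) : S_C4 := by
  intro n t _ f m b hm hb c q hq hqm
  have h := gC4 hR n t (3 * f) m b hm.g hb.g c q hq hqm
  push_cast at h ⊢
  exact h

theorem tC6 (hR : DS.S_R1) : S_C6 := by
  intro n t _ f m b hm hb
  obtain ⟨h1, h2, h3, h4, h5⟩ := gC6 hR n t (3 * f) hm.four m b hm.g hb.g
  obtain ⟨h6, h7⟩ := h3 3 (by norm_num) (Or.inl (dvd_mul_right 3 f))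
  refine ⟨fun b' hb' hr => h1 b' hb'.g hr, fun z hz => ?_, fun r _ => ⟨(h2 r).1, ?_⟩, h4, h5⟩
  · have h8 := h6 z hz
    push_cast at h8
    exact h8
  · have h8 := h7 r
    push_cast at h8
    exact h8

theorem tC7 (hR : DS.S_R1) : S_C7 := by
  intro n t _ f m b hm hb
  obtain ⟨-, h2, h3, h4, h5, -⟩ := DS.aC7 n t (3 * f) m b hm.g hb.g
  obtain ⟨k1, k2⟩ := gC7 hR n t (3 * f) m b hm.g hb.g
  refine ⟨k1, h2, fun j hj => h3 j 3 (Or.inl (dvd_mul_right 3 f)) hj, h4,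
    fun j => ⟨(h5 j).1, fun P hP => ?_⟩, k2⟩
  have hP1 : P.IsPrime := hP.1.1
  have hf : VP P ((f : ℕ) : Om) := DI.F.vp_natCast hP1 f
  have h3P : MP P ((3 * f : ℕ) : Om) := by
    push_cast
    exact DI.F.mp_mul_vp hP1 hP.2 hf
  obtain ⟨y, hy, he⟩ := (h5 j).2 P hP.1 h3P
  refine ⟨f * y, DI.F.vp_mul hP1 hf hy, ?_⟩
  rw [he]
  push_cast
  ring

end Pool.Agent.DM.DU
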