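import Pool.Agent.Lib.DU.C.Spec9

/-!
# Part C for DU, module Elz: the limits of the combinations over `T`, integral levels (helper2)
-/

set_option autoImplicit false

open scoped Pointwise Topology nonZeroDivisors
open Filter

noncomputable section

namespace Pool.Agent.DM.DU.C

open Pool.Agent.MuZ Pool.Agent.FW NumberField IsDedekindDomain Pool.Agent.DM Pool.Agent.DM.DU
open Pool.Agent.DI (io ofC io_inj exists_io io_ofC ofC_io VP MP UP TP ex)
open Pool.Agent.DN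
open Pool.Agent.DN.C (rsum PerO Th)
open Pool.Agent.DS.C (ftp Ts Hs Pf h0 T0 Lg Hg s0)

private theorem Elz_lim {l : ℕ} (hl : 0 < l) :
    Tendsto (fun y : ℝ => y / l) (𝓝[>] 0) (𝓝[>] 0) := by
  have hl' : (0 : ℝ) < l := by exact_mod_cast hl
  refine tendsto_nhdsWithin_iff.2 ⟨?_, ?_⟩
  · have h : Tendsto (fun y : ℝ => y / l) (𝓝 0) (𝓝 (0 / l)) :=
      (continuous_id.div_const (l : ℝ)).tendsto 0
    rw [zero_div] at h
    exact h.mono_left nhdsWithin_le_nhds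
  · filter_upwards [self_mem_nhdsWithin] with y hy
    exact div_pos hy hl'

private theorem Elz_fb {n t : ℕ} [SqN n t] {p f : ℕ} {b : Ideal (OO n t)}
    {α : OO n t} (hF : 0 < p * f) (hF2 : 2 ∣ p * f) (hb : DS.FBg (p * f) b)
    (h1 : (f : OO n t) ∣ α - 1) (h2 : Cop α p) : DS.FBg (p * f) (sp α * b) := by
  have hp : 0 < p := Nat.pos_of_ne_zero fun h => by rw [h, zero_mul] at hF; exact lt_irrefl _ hF
  have hf : 0 < f := Nat.pos_of_ne_zero fun h => by rw [h, mul_zero] at hF; exact lt_irrefl _ hF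
  obtain ⟨o1, o2, -, o4, -⟩ := aO6 n t
  have hα : Cop α (p * f) := by
    refine (o4 (p * f) α hF).1 ((o2 p f _).2 ⟨(o4 p α hp).2 h2, (o4 f α hf).2 ?_⟩)
    refine cop_congr (a := 1) ?_ (cop_one f)
    obtain ⟨c, hc⟩ := h1
    exact ⟨-c, by rw [mul_neg, ← hc]; ring⟩
  have hα0 : α ≠ 0 := by
    rintro rfl
    unfold Cop at hα
    rw [Nm_zero, isCoprime_zero_left, Int.isUnit_iff] at hα
    obtain ⟨k, hk⟩ := hF2
    rw [hk] at hα
    push_cast at hα
    omega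
  refine ⟨fun h => ?_, (o1 (p * f) _ _).2 ⟨(o4 (p * f) α hF).2 hα, hb.cop⟩⟩
  obtain ⟨v, hv, hv0⟩ := Submodule.exists_mem_ne_zero_of_ne_bot hb.ne
  have h3 : α * v ∈ sp α * b := Ideal.mul_mem_mul (Ideal.mem_span_singleton_self α) hv
  rw [h, Ideal.mem_bot] at h3
  have h4 : Nm α * Nm v = 0 := by rw [← Nm_mul, h3, Nm_zero]
  rcases mul_eq_zero.1 h4 with h5 | h5
  · exact hα0 (Nm_eq_zero h5)
  · exact hv0 (Nm_eq_zero h5)

theorem tElz (hL : DS.C.S_Lh) : S_Elz := by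
  intro n t _ p l f N m b T g hl hm hb hT r hr
  have hFB : ∀ α ∈ T, DS.FBg (p * f) (sp α * b) := fun α hα =>
    Elz_fb hm.pos hm.two hb (hT α hα).1 (hT α hα).2
  have hl0 : (l : ℂ) ≠ 0 := by exact_mod_cast hl.ne'
  have hlq : (l : ℚ) ≠ 0 := by exact_mod_cast hl.ne'
  refine tendsto_finset_sum _ fun α hα => ?_
  refine Tendsto.const_mul _ (Tendsto.const_mul _ ?_)
  have e : (((l : ℤ) * N : ℤ) : ℚ) * (r / l) + ((1 : ℤ) : ℚ) = N * r + 1 := by
    push_cast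
    field_simp
  have hc : (((l : ℤ) * N : ℤ) : ℚ) * (r / l) + ((1 : ℤ) : ℚ) ≠ 0 := by
    rw [e]
    exact hr
  have h := ((hL n t (p * f) m (sp α * b) hm (hFB α hα)).2.1 1 0 ((l : ℤ) * N) 1 (by ring)
    (r / l) hc).comp (Elz_lim hl)
  have e2 : (((1 : ℤ) : ℚ) * (r / l) + ((0 : ℤ) : ℚ)) /
      ((((l : ℤ) * N : ℤ) : ℚ) * (r / l) + ((1 : ℤ) : ℚ)) = r / (N * r + 1) / l := by
    rw [e, Int.cast_one, Int.cast_zero, one_mul, add_zero, div_div, div_div, mul_comm (l : ℚ)]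
  rw [e2] at h
  refine h.congr fun y => ?_
  rw [Function.comp_apply]
  congr 1
  have e3 : (((r / l : ℚ) : ℂ) + ((y / l : ℝ) : ℂ) * Complex.I) = (r + y * Complex.I) / l := by
    push_cast
    field_simp
  rw [e3]
  have e4 : (((l : ℤ) * N : ℤ) : ℂ) * ((r + y * Complex.I) / l) + ((1 : ℤ) : ℂ) =
      N * (r + y * Complex.I) + 1 := by
    push_cast
    field_simp
  rw [e4, Int.cast_one, Int.cast_zero, one_mul, add_zero, div_div, div_div, mul_comm (l : ℂ)]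

end Pool.Agent.DM.DU.C
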