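import Pool.Agent.Lib.DU.C.Spec9

/-!
# Part C for DU (`3` ramified): the action of `(1 0; M 1)`, `(1 0; 3 M 1)` and their inverses
-/

set_option autoImplicit false

open scoped Pointwise Topology nonZeroDivisors
open Filter

noncomputable section

namespace Pool.Agent.DM.DU.C

open Pool.Agent.MuZ Pool.Agent.FW NumberField IsDedekindDomain Pool.Agent.DM Pool.Agent.DM.DU
open Pool.Agent.DI (io ofC io_inj exists_io io_ofC ofC_io VP MP UP TP ex)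
open Pool.Agent.DN
open Pool.Agent.DN.C (rsum PerO Th)
open Pool.Agent.DS.C (ftp Ts Hs Pf h0 T0 Lg Hg s0)

private theorem Hgu_pri {n t : ℕ} {b : Ideal (OO n t)} {N M : ℕ} (h : PrI b N) (hd : M ∣ N) :
    PrI b M := by
  unfold PrI at h ⊢
  refine top_le_iff.1 (le_trans (le_of_eq h.symm) ?_)
  exact sup_le_sup_left (Ideal.span_singleton_le_span_singleton.2 (Nat.cast_dvd_cast hd)) b

private theorem Hgu_sq (x : ℤ) (h1 : ¬ (3 : ℤ) ∣ x) : (3 : ℤ) ∣ x ^ 2 - 1 := by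
  have h2 : x % 3 = 1 ∨ x % 3 = 2 := by omega
  rcases h2 with h2 | h2
  · obtain ⟨y, hy⟩ : ∃ y : ℤ, x = 3 * y + 1 := ⟨x / 3, by omega⟩
    exact ⟨3 * y ^ 2 + 2 * y, by rw [hy]; ring⟩
  · obtain ⟨y, hy⟩ : ∃ y : ℤ, x = 3 * y + 2 := ⟨x / 3, by omega⟩
    exact ⟨3 * y ^ 2 + 4 * y + 1, by rw [hy]; ring⟩

private theorem Hgu_sq3 (x : ℤ) (h : IsCoprime x ((3 : ℕ) : ℤ)) : ((3 : ℕ) : ℤ) ∣ x ^ 2 - 1 := by
  refine Hgu_sq x fun hd => ?_
  have h2 : IsUnit ((3 : ℕ) : ℤ) := h.isUnit_of_dvd' hd dvd_rfl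
  rw [Int.isUnit_iff] at h2
  omega

/-- The action of a lower triangular matrix on the upper half plane. -/
private theorem Hgu_im (a : ℝ) {z : ℂ} (hz : 0 < z.im) :
    (a : ℂ) * z + 1 ≠ 0 ∧ 0 < (z / ((a : ℂ) * z + 1)).im := by
  have h0 : (a : ℂ) * z + 1 ≠ 0 := by
    intro h
    have h1 := congrArg Complex.im h
    simp only [Complex.add_im, Complex.mul_im, Complex.ofReal_re, Complex.ofReal_im, zero_mul,
      add_zero, Complex.one_im, Complex.zero_im] at h1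
    rcases mul_eq_zero.1 h1 with h2 | h2
    · rw [h2] at h
      simp at h
    · exact hz.ne' h2
  refine ⟨h0, ?_⟩
  have h1 : 0 < Complex.normSq ((a : ℂ) * z + 1) := Complex.normSq_pos.2 h0
  have e : (z / ((a : ℂ) * z + 1)).im = z.im / Complex.normSq ((a : ℂ) * z + 1) := by
    rw [Complex.div_im]
    have e1 : ((a : ℂ) * z + 1).re = a * z.re + 1 := by simp
    have e2 : ((a : ℂ) * z + 1).im = a * z.im := by simp
    rw [e1, e2, ← sub_div]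
    congr 1
    ring
  rw [e]
  exact div_pos hz h1

private theorem Hgu_inv (a : ℝ) {z : ℂ} (hz : 0 < z.im) :
    (z / ((-a : ℝ) * z + 1)) / ((a : ℂ) * (z / ((-a : ℝ) * z + 1)) + 1) = z := by
  obtain ⟨h0, h1⟩ := Hgu_im (-a) hz
  obtain ⟨h2, -⟩ := Hgu_im a h1
  rw [div_eq_iff h2]
  have h3 : (((-a : ℝ) : ℂ)) = -(a : ℂ) := by push_cast; rfl
  rw [h3] at h0 ⊢
  have h4 : z / (-(a : ℂ) * z + 1) * (-(a : ℂ) * z + 1) = z := div_mul_cancel₀ z h0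
  rw [div_eq_iff h0]
  linear_combination (-(z * a)) * h4

private theorem Hgu_zt (N : ℕ) : zt3 1 N * zt3 (-1) N = 1 := by
  unfold zt3 ex
  rw [← Complex.exp_add]
  have e : 2 * (Real.pi : ℂ) * Complex.I * (-(((1 : ℤ) : ℂ) * N) / 3) +
      2 * (Real.pi : ℂ) * Complex.I * (-(((-1 : ℤ) : ℂ) * N) / 3) = 0 := by
    push_cast
    ring
  rw [e, Complex.exp_zero]

private theorem Hgu_one {n t : ℕ} : PerO 3 (fun _ : OO n t => (1 : ℂ)) := fun _ _ => rfl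

theorem tHgu (hU : DS.C.S_Ug) (hL : S_Lcu) (hN : S_Lin) (hZ : S_Zsx) : S_Hgu := by
  intro n t _ f M c m b hm hb hM3 hM s hs
  have hf : Fok f := hm.toFok
  obtain ⟨hper, -, -, -⟩ := hZ n t
  have hPf : Pf 3 f m b := ⟨by norm_num, hf.pos, hf.cop, Hgu_sq3, hm.ne, hb.ne,
    Hgu_pri hm.prm (dvd_mul_right 3 f), Hgu_pri hb.prm (dvd_mul_right 3 f)⟩
  obtain ⟨D', hD'⟩ : ∃ D', D' = Dk n t / 3 := ⟨_, rfl⟩
  have hD3 : Dk n t = 3 * D' := by
    have h1 : Dk n t % 3 = 0 := Ram3.zero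
    omega
  obtain ⟨N, hNN⟩ : ∃ N, N = NI (m * b) := ⟨_, rfl⟩
  rw [← hD'] at hM
  rw [← hNN] at hM ⊢
  have hdd : Dk n t * 3 ^ 2 = D' * (3 * 9) := by
    rw [hD3]
    ring
  have hcong : (3 : ℤ) ∣ c * (Dk n t / 3 : ℕ) - N := by
    rw [← hD']
    have h1 : ¬ (3 : ℤ) ∣ (f : ℤ) := by
      intro h
      have h2 : 3 ∣ f := by exact_mod_cast h
      have h3 := Nat.dvd_gcd h2 (dvd_refl 3)
      rw [hf.cop] at h3
      omega
    have h2 : ¬ (3 : ℤ) ∣ (N : ℤ) := by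
      intro h
      have h3 : 3 ∣ N := by exact_mod_cast h
      have h4 : 3 ∣ M := by
        rw [← hM]
        exact Dvd.dvd.mul_right (Dvd.dvd.mul_left h3 _) _
      omega
    obtain ⟨x, hx⟩ := Hgu_sq _ h1
    obtain ⟨y, hy⟩ := Hgu_sq _ h2
    obtain ⟨w, hw⟩ : ∃ w : ℤ, (M : ℤ) - 1 = 3 * w := ⟨M / 3, by omega⟩
    have h3 : (D' : ℤ) * (f : ℤ) ^ 2 * N * c = M := by exact_mod_cast hM
    refine ⟨(N : ℤ) * w - c * D' * ((f : ℤ) ^ 2 * y + x), ?_⟩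
    linear_combination (N : ℤ) * h3 + (N : ℤ) * hw - (c * D' : ℤ) * hx -
      (c * D' * (f : ℤ) ^ 2 : ℤ) * hy
  have hL1 := (hL n t f (3 * c) N hf.cop).1 (dvd_mul_right 3 c)
  have hL2 := (hL n t f c N hf.cop).2 hcong
  -- the identities for `s = 1`
  have k1 : ∀ k : ℕ, (k = 1 ∨ k = 2) → ∃ C : ℂ, ∀ z : ℂ, 0 < z.im →
      Hg 3 f m b 1 (zc k) (z / ((3 * M : ℕ) * z + 1)) = Hg 3 f m b 1 (zc k) z + C := by
    intro k hk
    have hH : Hs 3 3 3 3 9 f (3 * M) (3 * c) D' 1 1 m b (zc k) (zc k) :=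
      ⟨hPf, hPf, by norm_num, by norm_num, by norm_num, rfl, hdd, hdd, by
        rw [← hM, ← hNN]
        ring, hper k, hper k, fun u => by rw [hL1 k hk u]⟩
    exact hU n t 3 3 3 3 9 f (3 * M) (3 * c) D' 1 1 m b _ _ hH
  have k2 : ∃ C : ℂ, ∀ z : ℂ, 0 < z.im →
      Hg 3 f m b 1 (zc 1) (z / (M * z + 1)) = zt3 1 N * Hg 3 f m b 1 (zc 1) z + C := by
    have hp' : PerO 3 (fun v : OO n t => zt3 1 N * zc 1 v) := by
      intro v u
      have h := hper 1 v u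
      change zt3 1 N * zc 1 _ = zt3 1 N * zc 1 _
      rw [h]
    have hH : Hs 3 3 3 3 9 f M c D' 1 1 m b (zc 1) (fun v => zt3 1 N * zc 1 v) :=
      ⟨hPf, hPf, by norm_num, by norm_num, by norm_num, rfl, hdd, hdd, by
        rw [← hNN]
        exact hM, hper 1, hp', fun u => by rw [(hL2 u).1]⟩
    obtain ⟨C, hC⟩ := hU n t 3 3 3 3 9 f M c D' 1 1 m b _ _ hH
    refine ⟨C, fun z hz => ?_⟩
    rw [hC z hz]
    have h1 := hN n t 3 3 f m b 1 (zc 1) (zc 1) (zt3 1 N) 0 z hPf (by norm_num) (hper 1) (hper 1) hz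
    have e : (fun v : OO n t => zt3 1 N * zc 1 v + 0 * zc 1 v) = fun v => zt3 1 N * zc 1 v := by
      funext v
      rw [zero_mul, add_zero]
    rw [e, zero_mul, add_zero] at h1
    rw [h1]
  have hp2 : ∀ x : ℂ, PerO 3 (fun v : OO n t => x * zc 2 v + 2 / 3 * (1 - x) * 1) := by
    intro x v u
    have h := hper 2 v u
    change x * zc 2 _ + 2 / 3 * (1 - x) * 1 = x * zc 2 _ + 2 / 3 * (1 - x) * 1
    rw [h]
  have hl2 : ∀ (x z : ℂ), 0 < z.im →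
      Hg 3 f m b 1 (fun v : OO n t => x * zc 2 v + 2 / 3 * (1 - x) * 1) z =
        x * Hg 3 f m b 1 (zc 2) z + 2 / 3 * (1 - x) * Hg 3 f m b 1 (fun _ => 1) z := by
    intro x z hz
    exact hN n t 3 3 f m b 1 (zc 2) (fun _ => 1) x (2 / 3 * (1 - x)) z hPf (by norm_num) (hper 2)
      Hgu_one hz
  rcases hs with rfl | rfl
  · refine ⟨?_, ?_, ?_⟩
    · intro k hk
      obtain ⟨C, hC⟩ := k1 k hk
      refine ⟨C, fun z hz => ?_⟩
      have h := hC z hz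
      have e : ((3 * M : ℕ) : ℂ) = ((1 : ℤ) : ℂ) * (3 * M) := by push_cast; ring
      rw [e] at h
      exact h
    · obtain ⟨C, hC⟩ := k2
      refine ⟨C, fun z hz => ?_⟩
      have h := hC z hz
      have e : (M : ℂ) = ((1 : ℤ) : ℂ) * M := by push_cast; ring
      rw [e] at h
      exact h
    · have hH : Hs 3 3 3 3 9 f M c D' 1 1 m b (zc 2)
          (fun v => zt3 1 N * zc 2 v + 2 / 3 * (1 - zt3 1 N) * 1) :=
        ⟨hPf, hPf, by norm_num, by norm_num, by norm_num, rfl, hdd, hdd, by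
          rw [← hNN]
          exact hM, hper 2, hp2 _, fun u => by rw [(hL2 u).2.1]⟩
      obtain ⟨C, hC⟩ := hU n t 3 3 3 3 9 f M c D' 1 1 m b _ _ hH
      refine ⟨C, fun z hz => ?_⟩
      have h := hC z hz
      rw [hl2 _ z hz] at h
      have e : (M : ℂ) = ((1 : ℤ) : ℂ) * M := by push_cast; ring
      rw [e] at h
      exact h
  · refine ⟨?_, ?_, ?_⟩
    · intro k hk
      obtain ⟨C, hC⟩ := k1 k hk
      refine ⟨-C, fun z hz => ?_⟩
      have e0 : (((-1 : ℤ) : ℂ)) * (3 * M) = ((-((3 * M : ℕ) : ℝ) : ℝ) : ℂ) := by push_cast; ring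
      have e1 : (((3 * M : ℕ) : ℝ) : ℂ) = ((3 * M : ℕ) : ℂ) := by push_cast; rfl
      rw [e0]
      have h1 := hC _ (Hgu_im (-((3 * M : ℕ) : ℝ)) hz).2
      have h2 := Hgu_inv ((3 * M : ℕ) : ℝ) hz
      rw [e1] at h2
      rw [h2] at h1
      rw [h1]
      ring
    · obtain ⟨C, hC⟩ := k2
      refine ⟨-(zt3 (-1) N * C), fun z hz => ?_⟩
      have e0 : (((-1 : ℤ) : ℂ)) * M = ((-((M : ℕ) : ℝ) : ℝ) : ℂ) := by push_cast; ring
      have e1 : (((M : ℕ) : ℝ) : ℂ) = ((M : ℕ) : ℂ) := by push_cast; rfl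
      rw [e0]
      have h1 := hC _ (Hgu_im (-((M : ℕ) : ℝ)) hz).2
      have h2 := Hgu_inv ((M : ℕ) : ℝ) hz
      rw [e1] at h2
      rw [h2] at h1
      have h3 := Hgu_zt N
      rw [h1]
      linear_combination (-(Hg 3 f m b 1 (zc 1) (z / ((-((M : ℕ) : ℝ) : ℝ) * z + 1)))) * h3
    · have hH : Hs 3 3 3 3 9 f M c D' 1 1 m b
          (fun v => zt3 (-1) N * zc 2 v + 2 / 3 * (1 - zt3 (-1) N) * 1) (zc 2) :=
        ⟨hPf, hPf, by norm_num, by norm_num, by norm_num, rfl, hdd, hdd, by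
          rw [← hNN]
          exact hM, hp2 _, hper 2, fun u => by rw [(hL2 u).2.2]⟩
      obtain ⟨C, hC⟩ := hU n t 3 3 3 3 9 f M c D' 1 1 m b _ _ hH
      refine ⟨-C, fun z hz => ?_⟩
      have e0 : (((-1 : ℤ) : ℂ)) * M = ((-((M : ℕ) : ℝ) : ℝ) : ℂ) := by push_cast; ring
      have e1 : (((M : ℕ) : ℝ) : ℂ) = ((M : ℕ) : ℂ) := by push_cast; rfl
      rw [e0]
      have h1 := hC _ (Hgu_im (-((M : ℕ) : ℝ)) hz).2
      have h2 := Hgu_inv ((M : ℕ) : ℝ) hz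
      rw [e1] at h2
      rw [h2, hl2 _ z hz] at h1
      linear_combination (-1 : ℂ) * h1

end Pool.Agent.DM.DU.C
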