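import Pool.Agent.Lib.DU.C.Spec9

/-!
# Part C for DU (`3` ramified): Lcu, the local identities (author helper86)
-/

set_option autoImplicit false

open scoped Pointwise Topology nonZeroDivisors
open Filter

noncomputable section

namespace Pool.Agent.DM.DU.C

open Pool.Agent.MuZ Pool.Agent.FW NumberField IsDedekindDomain Pool.Agent.DM Pool.Agent.DM.DU
open Pool.Agent.DI (io ofC io_inj exists_io io_ofC ofC_io VP MP UP TP ex)
open Pool.Agent.DN
open Pool.Agent.DN.C (rsum PerO Th)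
open Pool.Agent.DS.C (ftp Ts Hs Pf h0 T0 Lg Hg s0)

variable {n t : ℕ}

private lemma ex_add' (x y : ℂ) : ex (x + y) = ex x * ex y := by
  unfold ex
  rw [mul_add, Complex.exp_add]

private lemma ex_int' (n' : ℤ) : ex (n' : ℂ) = 1 := by
  unfold ex
  have h : 2 * (Real.pi : ℂ) * Complex.I * (n' : ℂ) = (n' : ℂ) * (2 * Real.pi * Complex.I) := by ring
  rw [h]
  exact Complex.exp_int_mul_two_pi_mul_I n'

private lemma ex_one' {x : ℂ} (h : ex x = 1) : ∃ n' : ℤ, x = n' := by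
  unfold ex at h
  obtain ⟨n', hn⟩ := Complex.exp_eq_one_iff.1 h
  refine ⟨n', ?_⟩
  have h2 : (2 * (Real.pi : ℂ) * Complex.I) ≠ 0 := Complex.two_pi_I_ne_zero
  have h3 : (2 * (Real.pi : ℂ) * Complex.I) * x = (2 * (Real.pi : ℂ) * Complex.I) * n' := by
    rw [hn]; ring
  exact mul_left_cancel₀ h2 h3

/-- `e(a/3)`. -/
private def E (a : ℤ) : ℂ := ex ((a : ℂ) / 3)

private lemma E_add (a b : ℤ) : E (a + b) = E a * E b := by
  unfold E
  rw [← ex_add']
  congr 1
  push_cast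
  ring

private lemma E_zero {a : ℤ} (h : (3 : ℤ) ∣ a) : E a = 1 := by
  obtain ⟨k, rfl⟩ := h
  unfold E
  have h1 : ((3 * k : ℤ) : ℂ) / 3 = (k : ℂ) := by
    push_cast
    ring
  rw [h1, ex_int']

private lemma E_congr {a b : ℤ} (h : (3 : ℤ) ∣ a - b) : E a = E b := by
  have h1 : a = b + (a - b) := by ring
  rw [h1, E_add, E_zero h, mul_one]

private lemma E_pow (a : ℤ) (k : ℕ) : E a ^ k = E (k * a) := by
  induction k with
  | zero =>
    rw [pow_zero, E_zero]
    simp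
  | succ k ih =>
    rw [pow_succ, ih, ← E_add]
    congr 1
    push_cast
    ring

private lemma E_cube (a : ℤ) : E a ^ 3 = 1 := by
  rw [E_pow, E_zero]
  exact ⟨a, by push_cast; ring⟩

private lemma E_ne {a : ℤ} (h : ¬ (3 : ℤ) ∣ a) : 1 + E a + E a ^ 2 = 0 := by
  have h1 : E a ≠ 1 := by
    intro h1
    obtain ⟨k, hk⟩ := ex_one' h1
    apply h
    refine ⟨k, ?_⟩
    have h2 : (a : ℂ) = 3 * k := by
      rw [← hk]
      ring
    exact_mod_cast h2
  have h2 := E_cube a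
  have h3 : (E a - 1) * (1 + E a + E a ^ 2) = 0 := by
    linear_combination h2
  rcases mul_eq_zero.1 h3 with h4 | h4
  · exact absurd (sub_eq_zero.1 h4) h1
  · exact h4

private lemma im_eq (x y : ℤ) (u : OO n t) :
    ((⟨x, y⟩ : OO n t) * cjO u).im = y * u.re - x * u.im := by
  rw [im_mul]
  simp only [cjO]
  ring

private lemma ftp_eq (f : ℕ) (φ : OO n t → ℂ) (u : OO n t) :
    ftp 3 f φ u = ∑ x ∈ Finset.range 3, ∑ y ∈ Finset.range 3,
      φ ((f : OO n t) * ⟨(x : ℤ), (y : ℤ)⟩) * (E u.im ^ x * E (-u.re) ^ y) := by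
  unfold ftp rsum
  refine Finset.sum_congr rfl fun x _ => Finset.sum_congr rfl fun y _ => ?_
  have h1 := im_eq (x : ℤ) (y : ℤ) u
  beta_reduce
  rw [h1, E_pow, E_pow, ← E_add]
  unfold E
  congr 2
  push_cast
  ring

private def Z (m : ℤ) : ℤ := if (3 : ℤ) ∣ m - 1 then 1 else if (3 : ℤ) ∣ m + 1 then -1 else 0

private lemma zs_Z (x y : ℤ) : zs (⟨x, y⟩ : OO n t) = Z (x - t * y) := rfl

private lemma Z_0 : Z 0 = 0 := by decide
private lemma Z_1 : Z 1 = 1 := by decide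
private lemma Z_2 : Z 2 = -1 := by decide
private lemma Z_m1 : Z (-1) = -1 := by decide
private lemma Z_m2 : Z (-2) = 1 := by decide

private lemma ftp_one (f : ℕ) (u : OO n t) : ftp 3 f (fun _ => 1) u =
    (1 + E u.im + E u.im ^ 2) * (1 + E (-u.re) + E (-u.re) ^ 2) := by
  rw [ftp_eq]
  simp only [Finset.sum_range_succ, Finset.sum_range_zero]
  ring

private lemma ftp_zc [Ram3 n t] (f k : ℕ) (hk : 0 < k) (u : OO n t) : ftp 3 f (zc k) u =
    zc k (f : OO n t) * ((E u.im + (-1) ^ k * E u.im ^ 2) *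
      (1 + E (-(u.re - t * u.im)) + E (-(u.re - t * u.im)) ^ 2)) := by
  have h0 : (0 : ℂ) ^ k = 0 := zero_pow (by omega)
  have h1 : ∀ x y : ℤ, zc k ((f : OO n t) * ⟨x, y⟩) =
      zc k (f : OO n t) * (Z (x - t * y) : ℂ) ^ k := by
    intro x y
    unfold zc
    have h2 : zs (⟨x, y⟩ : OO n t) = Z (x - t * y) := zs_Z x y
    rw [zs_mul, h2]
    push_cast
    rw [mul_pow]
  rw [ftp_eq]
  simp only [Finset.sum_range_succ, Finset.sum_range_zero, h1]
  have hc := E_cube u.im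
  rcases (inferInstance : SqN n t).out with ⟨ht, -⟩ | ⟨ht, -⟩
  · subst ht
    have hQ : E (-(u.re - (1 : ℕ) * u.im)) = E u.im * E (-u.re) := by
      rw [← E_add]
      congr 1
      push_cast
      ring
    rw [hQ]
    generalize E u.im = P at *
    generalize E (-u.re) = R at *
    norm_num [Z_0, Z_1, Z_2, Z_m1, Z_m2, h0]
    linear_combination (-(zc k (f : OO n 1)) * ((-1) ^ k * R + R ^ 2 + (-1) ^ k * P * R ^ 2)) * hc
  · subst ht
    have hQ : E (-(u.re - (0 : ℕ) * u.im)) = E (-u.re) := by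
      congr 1
      push_cast
      ring
    rw [hQ]
    generalize E u.im = P at *
    generalize E (-u.re) = R at *
    norm_num [Z_0, Z_1, Z_2, Z_m1, Z_m2, h0]
    ring

private lemma ftp_lin (F0 : ℕ) (x y : ℂ) (f g : OO n t → ℂ) (u : OO n t) :
    ftp 3 F0 (fun v => x * f v + y * g v) u = x * ftp 3 F0 f u + y * ftp 3 F0 g u := by
  unfold ftp rsum
  simp only [Finset.mul_sum, ← Finset.sum_add_distrib]
  refine Finset.sum_congr rfl fun i _ => Finset.sum_congr rfl fun j _ => ?_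
  ring

private lemma ftp_smul (F0 : ℕ) (x : ℂ) (f : OO n t → ℂ) (u : OO n t) :
    ftp 3 F0 (fun v => x * f v) u = x * ftp 3 F0 f u := by
  unfold ftp rsum
  simp only [Finset.mul_sum]
  refine Finset.sum_congr rfl fun i _ => Finset.sum_congr rfl fun j _ => ?_
  ring

private lemma zc2_f [Ram3 n t] (f : ℕ) (hf : Nat.Coprime f 3) : zc 2 (f : OO n t) = 1 := by
  have h1 : zs (f : OO n t) ≠ 0 := by
    intro h
    rw [zs_zero, mem_pp, re_nat, im_nat] at h
    have h2 : (3 : ℤ) ∣ f := by simpa using h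
    have h3 : 3 ∣ f := by exact_mod_cast h2
    have h4 := Nat.dvd_gcd h3 (dvd_refl 3)
    rw [hf] at h4
    omega
  unfold zc
  rcases (zs_ph (f : OO n t)).2 with h | h | h
  · rw [h]
    norm_num
  · rw [h]
    norm_num
  · exact absurd h h1

/-- The three cases. -/
private lemma cases3 [Ram3 n t] (f : ℕ) (hf : Nat.Coprime f 3) (u : OO n t) :
    (ftp 3 f (zc 1) u = 0 ∧ ftp 3 f (zc 2) u = 0 ∧ ftp 3 f (fun _ => 1) u = 0) ∨
    (ftp 3 f (zc 1) u = 0 ∧ ftp 3 f (zc 2) u = 6 ∧ ftp 3 f (fun _ => 1) u = 9 ∧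
      ∀ c : ℕ, ex (-(c * Nm u) / (9 : ℕ)) = 1) ∨
    (ftp 3 f (zc 2) u = -3 ∧ ftp 3 f (fun _ => 1) u = 0 ∧
      ∀ c : ℕ, ex (-(c * Nm u) / (9 : ℕ)) = E (-(c * (Dk n t / 3 : ℕ)))) := by
  have hz := zc2_f (n := n) (t := t) f hf
  have p1 := ftp_zc f 1 (by norm_num) u
  have p2 := ftp_zc f 2 (by norm_num) u
  have p0 := ftp_one f u
  rw [hz] at p2
  by_cases hu : (3 : ℤ) ∣ u.re - t * u.im
  · right
    have hQ : E (-(u.re - t * u.im)) = 1 := E_zero ((dvd_neg).2 hu)
    rw [hQ] at p1 p2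
    -- the exponential
    obtain ⟨D', hD, -⟩ := D3 (n := n) (t := t)
    obtain ⟨k, hk⟩ := hu
    have hN : 4 * Nm u = 9 * (t * u.im + 2 * k) ^ 2 + 3 * D' * u.im ^ 2 := by
      have h1 := Dk_cast (n := n) (t := t)
      rw [hD] at h1
      push_cast at h1
      have h2 : u.re = t * u.im + 3 * k := by linarith
      unfold Nm
      rw [h2]
      linear_combination (-(u.im ^ 2 : ℤ)) * h1
    have hM : ∃ M : ℤ, Nm u = 3 * M := by
      refine ⟨3 * (t * u.im + 2 * k) ^ 2 + D' * u.im ^ 2 - Nm u, ?_⟩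
      linear_combination hN
    obtain ⟨M, hM⟩ := hM
    have hM2 : 4 * M = 3 * (t * u.im + 2 * k) ^ 2 + D' * u.im ^ 2 := by
      have h1 : 3 * (4 * M) = 3 * (3 * (t * u.im + 2 * k) ^ 2 + D' * u.im ^ 2) := by
        linear_combination hN - 4 * hM
      exact mul_left_cancel₀ (by norm_num) h1
    have hex : ∀ c : ℕ, ex (-(c * Nm u) / (9 : ℕ)) = E (-(c * M)) := by
      intro c
      unfold E
      congr 1
      rw [hM]
      push_cast
      ring
    have hD3 : Dk n t / 3 = D' := by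
      rw [hD]
      exact Nat.mul_div_cancel_left _ (by norm_num)
    by_cases hi : (3 : ℤ) ∣ u.im
    · left
      have hP : E u.im = 1 := E_zero hi
      have hR : E (-u.re) = 1 := by
        refine E_zero ((dvd_neg).2 ?_)
        obtain ⟨j, hj⟩ := hi
        refine ⟨k + t * j, ?_⟩
        rw [hj] at hk
        linear_combination hk
      rw [hP] at p1 p2 p0
      rw [hR] at p0
      refine ⟨by rw [p1]; ring, by rw [p2]; norm_num, by rw [p0]; norm_num, fun c => ?_⟩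
      rw [hex c]
      refine E_zero ?_
      obtain ⟨j, hj⟩ := hi
      refine (dvd_neg).2 (Dvd.dvd.mul_left ?_ _)
      refine ⟨(t * u.im + 2 * k) ^ 2 + 3 * D' * j ^ 2 - M, ?_⟩
      rw [hj] at hM2 ⊢
      linear_combination hM2
    · right
      have hP := E_ne hi
      refine ⟨?_, ?_, fun c => ?_⟩
      · rw [p2]
        linear_combination 3 * hP
      · rw [p0, hP, zero_mul]
      · rw [hex c, hD3]
        refine E_congr ?_
        have h2 : (3 : ℤ) ∣ u.im ^ 2 - 1 := by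
          have h3 : u.im % 3 = 1 ∨ u.im % 3 = 2 := by omega
          rcases h3 with h3 | h3
          · obtain ⟨j, hj⟩ : ∃ j : ℤ, u.im = 3 * j + 1 := ⟨u.im / 3, by omega⟩
            exact ⟨3 * j ^ 2 + 2 * j, by rw [hj]; ring⟩
          · obtain ⟨j, hj⟩ : ∃ j : ℤ, u.im = 3 * j + 2 := ⟨u.im / 3, by omega⟩
            exact ⟨3 * j ^ 2 + 4 * j + 1, by rw [hj]; ring⟩
        obtain ⟨j, hj⟩ := h2
        refine ⟨-(c * ((t * u.im + 2 * k) ^ 2 + D' * j - M)), ?_⟩
        linear_combination (-(c : ℤ)) * hM2 - (c : ℤ) * D' * hj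
  · left
    have hQ : 1 + E (-(u.re - t * u.im)) + E (-(u.re - t * u.im)) ^ 2 = 0 :=
      E_ne fun h => hu ((dvd_neg).1 h)
    rw [hQ] at p1 p2
    refine ⟨by rw [p1]; ring, by rw [p2]; ring, ?_⟩
    rw [p0]
    by_cases hi : (3 : ℤ) ∣ u.im
    · have h1 : ¬ (3 : ℤ) ∣ -u.re := by
        intro h1
        exact hu (dvd_sub ((dvd_neg).1 h1) (Dvd.dvd.mul_left hi _))
      rw [E_ne h1, mul_zero]
    · rw [E_ne hi, zero_mul]

theorem tLcu (hZ : S_Zsx) : S_Lcu := by
  intro n t _ f c N hf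
  have hone : ∀ u : OO n t, ∀ x y : ℂ, ftp 3 f (fun v => x * zc 2 v + y * 1) u =
      x * ftp 3 f (zc 2) u + y * ftp 3 f (fun _ => 1) u := fun u x y =>
    ftp_lin f x y (zc 2) (fun _ => 1) u
  refine ⟨fun hc k hk u => ?_, fun hc u => ?_⟩
  · have h0 : E (-(c * (Dk n t / 3 : ℕ))) = 1 := by
      refine E_zero ((dvd_neg).2 (Dvd.dvd.mul_right ?_ _))
      exact_mod_cast hc
    rcases cases3 f hf u with ⟨h1, h2, -⟩ | ⟨-, -, -, h4⟩ | ⟨-, -, h4⟩
    · rcases hk with rfl | rfl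
      · rw [h1, zero_mul]
      · rw [h2, zero_mul]
    · rw [h4, mul_one]
    · rw [h4, h0, mul_one]
  · have z1 : zt3 1 N = E (-N) := by
      unfold zt3 E
      congr 1
      push_cast
      ring
    have z2 : zt3 (-1) N = E N := by
      unfold zt3 E
      congr 1
      push_cast
      ring
    have z3 : E (N : ℤ) * E (-N) = 1 := by
      rw [← E_add, E_zero]
      simp
    have h0 : E (-(c * (Dk n t / 3 : ℕ))) = E (-N) := by
      refine E_congr ?_
      obtain ⟨j, hj⟩ := hc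
      exact ⟨-j, by linear_combination -hj⟩
    rw [hone, hone, ftp_smul, z1, z2]
    rcases cases3 f hf u with ⟨h1, h2, h3⟩ | ⟨h1, h2, h3, h4⟩ | ⟨h2, h3, h4⟩
    · rw [h1, h2, h3]
      refine ⟨by ring, by ring, by ring⟩
    · rw [h1, h2, h3, h4]
      refine ⟨by ring, by ring, by ring⟩
    · rw [h2, h3, h4, h0]
      refine ⟨by ring, by ring, ?_⟩
      linear_combination (-3) * z3

end Pool.Agent.DM.DU.C
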