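import Pool.Agent.Lib.DU.C.Spec9

/-!
# Part C for DU, module Lin: linearity of `Hg` in the function
-/

set_option autoImplicit false

open scoped Pointwise Topology nonZeroDivisors
open Filter

noncomputable section

namespace Pool.Agent.DM.DU.C

open Pool.Agent.MuZ Pool.Agent.FW NumberField IsDedekindDomain Pool.Agent.DM Pool.Agent.DM.DU
open Pool.Agent.DI (io ofC io_inj exists_io io_ofC ofC_io VP MP UP TP ex)
open Pool.Agent.DN
open Pool.Agent.DN.C (rsum PerO Th)
open Pool.Agent.DS.C (ftp Ts Hs Pf h0 T0 Lg Hg s0)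

variable {n t : ℕ}

private theorem Lin_sum [SqN n t] (ρ : OO n t → ℂ) (C : ℝ) (hC : ∀ v, ‖ρ v‖ ≤ C) (w : ℂ)
    (hw : 0 < w.im) : Summable fun v : OO n t => ρ v / toC v * ex (Nm v * w) := by
  have h1 := (Pool.Agent.DN.C.aSum n t).1 (2 * Real.pi * w.im) 0 (by positivity)
  simp only [pow_zero, one_mul] at h1
  have hC0 : 0 ≤ C := (norm_nonneg _).trans (hC 0)
  refine Summable.of_norm_bounded (h1.mul_left C) (fun v => ?_)
  rw [norm_mul, norm_div, (Pool.Agent.DN.C.aSum n t).2.1]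
  have h2 : ((Nm v : ℂ) * w).im = Nm v * w.im := by simp
  have h3 : ‖ρ v‖ / ‖toC v‖ ≤ C := by
    rcases eq_or_ne v 0 with hv | hv
    · have : toC v = 0 := ((Pool.Agent.DN.C.aBas n t).2.2.2.2.2.2.2.2.2 v).2 hv
      rw [this, norm_zero, div_zero]
      exact hC0
    · have hN := (Pool.Agent.DN.C.aBas n t).2.2.2.2.2.1 v
      have hN1 : (1 : ℤ) ≤ Nm v := by
        have h4 : Nm v ≠ 0 := fun h => hv (hN.2.1.1 h)
        have := hN.1
        omega
      have h5 : (1 : ℝ) ≤ ‖toC v‖ ^ 2 := by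
        rw [(Pool.Agent.DN.C.aBas n t).1 v]
        exact_mod_cast hN1
      have h6 : 1 ≤ ‖toC v‖ := by
        by_contra h
        have h7 := norm_nonneg (toC v)
        nlinarith
      exact (div_le_self (norm_nonneg _) h6).trans (hC v)
  have h4 : Real.exp (-2 * Real.pi * ((Nm v : ℂ) * w).im) =
      Real.exp (-(2 * Real.pi * w.im) * Nm v) := by
    rw [h2]
    congr 1
    ring
  rw [h4]
  exact mul_le_mul_of_nonneg_right h3 (Real.exp_nonneg _)

private theorem Lin_Th [SqN n t] (ρ ρ' : OO n t → ℂ) (C C' : ℝ) (hC : ∀ v, ‖ρ v‖ ≤ C)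
    (hC' : ∀ v, ‖ρ' v‖ ≤ C') (x y w : ℂ) (hw : 0 < w.im) :
    Th (fun v => x * ρ v + y * ρ' v) w = x * Th ρ w + y * Th ρ' w := by
  have h1 := Lin_sum ρ C hC w hw
  have h2 := Lin_sum ρ' C' hC' w hw
  have e : (fun v : OO n t => (x * ρ v + y * ρ' v) / toC v * ex (Nm v * w)) = fun v =>
      x * (ρ v / toC v * ex (Nm v * w)) + y * (ρ' v / toC v * ex (Nm v * w)) := by
    funext v
    ring
  unfold Th
  rw [e, (h1.mul_left x).tsum_add (h2.mul_left y), tsum_mul_left, tsum_mul_left]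
  ring

private theorem Lin_s0 [SqN n t] (f : ℕ) (b : Ideal (OO n t)) (s : ℤ) (v : OO n t) :
    ‖s0 f b s v‖ ≤ 1 := by
  unfold s0
  split_ifs <;> simp

private theorem Lin_Lg [SqN n t] (p l f : ℕ) (b : Ideal (OO n t)) (s : ℤ) (g g' : OO n t → ℂ)
    (x y z : ℂ) (hp : 0 < p) (hl : 0 < l) (hg : PerO p g) (hg' : PerO p g') (hz : 0 < z.im) :
    Lg l f b s (fun v => x * g v + y * g' v) z = x * Lg l f b s g z + y * Lg l f b s g' z := by
  obtain ⟨C, hC0, hC⟩ := (Pool.Agent.DN.C.aSum n t).2.2 p g hp hg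
  obtain ⟨C', hC0', hC'⟩ := (Pool.Agent.DN.C.aSum n t).2.2 p g' hp hg'
  unfold Lg
  rcases Nat.eq_zero_or_pos (NI b) with h | h
  · rw [h]
    simp
  · have hw : 0 < (z / l / NI b).im := by
      rw [Complex.div_natCast_im, Complex.div_natCast_im]
      have h1 : (0 : ℝ) < l := by exact_mod_cast hl
      have h2 : (0 : ℝ) < NI b := by exact_mod_cast h
      positivity
    have e : (fun v : OO n t => s0 f b s v * (x * g ((NI b : OO n t) * v) +
        y * g' ((NI b : OO n t) * v))) = fun v =>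
        x * (s0 f b s v * g ((NI b : OO n t) * v)) + y * (s0 f b s v * g' ((NI b : OO n t) * v)) := by
      funext v
      ring
    have b1 : ∀ v : OO n t, ‖s0 f b s v * g ((NI b : OO n t) * v)‖ ≤ C := by
      intro v
      rw [norm_mul]
      calc _ ≤ 1 * C := mul_le_mul (Lin_s0 f b s v) (hC _) (norm_nonneg _) zero_le_one
        _ = C := one_mul _
    have b2 : ∀ v : OO n t, ‖s0 f b s v * g' ((NI b : OO n t) * v)‖ ≤ C' := by
      intro v
      rw [norm_mul]
      calc _ ≤ 1 * C' := mul_le_mul (Lin_s0 f b s v) (hC' _) (norm_nonneg _) zero_le_one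
        _ = C' := one_mul _
    rw [e, Lin_Th _ _ C C' b1 b2 x y _ hw]
    ring

theorem tLin : S_Lin := by
  intro n t _ p l f m b s g g' x y z hP hl hg hg' hz
  have hp : 0 < p := lt_trans zero_lt_one hP.p0
  unfold Hg
  rw [Lin_Lg p l f (m * b) s g g' x y z hp hl hg hg' hz]
  rcases Nat.eq_zero_or_pos (NI m) with h | h
  · rw [h]
    simp
  · have hz' : 0 < ((NI m : ℂ) * z).im := by
      have h1 : ((NI m : ℂ) * z).im = NI m * z.im := by simp
      rw [h1]
      have h2 : (0 : ℝ) < NI m := by exact_mod_cast h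
      positivity
    rw [Lin_Lg p l f b s g g' x y _ hp hl hg hg' hz']
    ring

end Pool.Agent.DM.DU.C
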