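import Pool.Agent.Lib.DU.C.Spec9

/-!
# Part C for DU, module Pcu: change of ideals
-/

set_option autoImplicit false

open scoped Pointwise Topology nonZeroDivisors
open Filter

noncomputable section

namespace Pool.Agent.DM.DU.C

open Pool.Agent.MuZ Pool.Agent.FW NumberField IsDedekindDomain Pool.Agent.DM Pool.Agent.DM.DU
open Pool.Agent.DI (io ofC io_inj exists_io io_ofC ofC_io VP MP UP TP ex)
open Pool.Agent.DN
open Pool.Agent.DN.C (rsum PerO Th)
open Pool.Agent.DS.C (ftp Ts Hs Pf h0 T0 Lg Hg s0)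

variable {n t : ℕ}

private lemma Pcu_nu [SqN n t] (b : Ideal (OO n t)) : ((NI b : ℕ) : OO n t) ∈ cjI b := by
  have h : (NI b : OO n t) ∈ b * cjI b := by
    rw [((aO3 n t).2.2.1 b).2.2]
    exact Ideal.mem_span_singleton_self _
  exact Ideal.mul_le_right h

private lemma Pcu_bez {ν f : ℕ} (h : ν.Coprime f) :
    ∃ a c : ℤ, (a : OO n t) * ((ν : ℕ) : OO n t) + (c : OO n t) * ((f : ℕ) : OO n t) = 1 := by
  obtain ⟨a, c, hac⟩ := Nat.isCoprime_iff_coprime.2 h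
  refine ⟨a, c, ?_⟩
  have h1 := congrArg (fun j : ℤ => (j : OO n t)) hac
  push_cast at h1
  exact h1

private lemma Pcu_dv {f ν : ℕ} (h : ν.Coprime f) {y : OO n t}
    (hy : (f : OO n t) ∣ (ν : OO n t) * y) : (f : OO n t) ∣ y := by
  obtain ⟨a, c, h1⟩ := Pcu_bez (n := n) (t := t) h
  obtain ⟨w, hw⟩ := hy
  exact ⟨(a : OO n t) * w + (c : OO n t) * y, by linear_combination (-y) * h1 + (a : OO n t) * hw⟩

private lemma Pcu_dva [SqN n t] {f : ℕ} {α y : OO n t} (h : Cop α f)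
    (hy : (f : OO n t) ∣ α * y) : (f : OO n t) ∣ y := by
  obtain ⟨β, -, hβ⟩ := cop_inv h
  have e : y = β * (α * y) - (α * β - 1) * y := by ring
  rw [e]
  exact dvd_sub (hy.mul_left β) (hβ.mul_right y)

private lemma Pcu_mem [SqN n t] {f : ℕ} {b : Ideal (OO n t)} (h : (NI b).Coprime f) {x : OO n t}
    (hx : x ∈ cjI b) : x ∈ sp (f : OO n t) * cjI b ↔ (f : OO n t) ∣ x := by
  constructor
  · intro h1
    exact Ideal.mem_span_singleton.1 (Ideal.mul_le_left h1)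
  · rintro ⟨w, hw⟩
    rw [Ideal.mem_span_singleton_mul]
    refine ⟨w, ?_, hw.symm⟩
    obtain ⟨a, c, h1⟩ := Pcu_bez (n := n) (t := t) h
    have e : w = (c : OO n t) * x + (a : OO n t) * w * ((NI b : ℕ) : OO n t) := by
      rw [hw]
      linear_combination (-w) * h1
    rw [e]
    exact Ideal.add_mem _ (Ideal.mul_mem_left _ _ hx) (Ideal.mul_mem_left _ _ (Pcu_nu b))

private lemma Pcu_s0 [SqN n t] {f : ℕ} {b b' : Ideal (OO n t)} {s s' : ℤ} {A A' u v : OO n t}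
    (hb : (NI b).Coprime f) (hb' : (NI b').Coprime f)
    (hA : ∀ y : OO n t, (f : OO n t) ∣ A * y → (f : OO n t) ∣ y)
    (hA' : ∀ y : OO n t, (f : OO n t) ∣ A' * y → (f : OO n t) ∣ y)
    (hr : (f : OO n t) ∣ A * ((s' * NI b' : ℤ) : OO n t) - A' * ((s * NI b : ℤ) : OO n t))
    (hu : u ∈ cjI b') (hv : v ∈ cjI b) (h : A * u = A' * v) : s0 f b s v = s0 f b' s' u := by
  have h1 : ∀ (s : ℤ) (b : Ideal (OO n t)), ((s * NI b : ℤ) : OO n t) ∈ cjI b := by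
    intro s b
    push_cast
    exact Ideal.mul_mem_left _ _ (Pcu_nu b)
  have key : v - ((s * NI b : ℤ) : OO n t) ∈ sp (f : OO n t) * cjI b ↔
      u - ((s' * NI b' : ℤ) : OO n t) ∈ sp (f : OO n t) * cjI b' := by
    rw [Pcu_mem hb (Ideal.sub_mem _ hv (h1 s b)), Pcu_mem hb' (Ideal.sub_mem _ hu (h1 s' b'))]
    have e : A * (u - ((s' * NI b' : ℤ) : OO n t)) = A' * (v - ((s * NI b : ℤ) : OO n t)) -
        (A * ((s' * NI b' : ℤ) : OO n t) - A' * ((s * NI b : ℤ) : OO n t)) := by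
      linear_combination h
    constructor
    · intro h2
      apply hA
      rw [e]
      exact dvd_sub (Dvd.dvd.mul_left h2 _) hr
    · intro h2
      apply hA'
      have e2 : A' * (v - ((s * NI b : ℤ) : OO n t)) = A * (u - ((s' * NI b' : ℤ) : OO n t)) +
          (A * ((s' * NI b' : ℤ) : OO n t) - A' * ((s * NI b : ℤ) : OO n t)) := by
        rw [e]
        ring
      rw [e2]
      exact dvd_add (Dvd.dvd.mul_left h2 _) hr
  unfold s0
  by_cases h2 : v - ((s * NI b : ℤ) : OO n t) ∈ sp (f : OO n t) * cjI b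
  · rw [if_pos h2, if_pos (key.1 h2)]
  · rw [if_neg h2, if_neg fun h3 => h2 (key.2 h3)]

private lemma Pcu_mem0 [SqN n t] {f : ℕ} {b : Ideal (OO n t)} {s : ℤ} {v : OO n t}
    (h : s0 f b s v ≠ 0) : v ∈ cjI b := by
  unfold s0 at h
  by_cases h2 : v - ((s * NI b : ℤ) : OO n t) ∈ sp (f : OO n t) * cjI b
  · have h3 : v - ((s * NI b : ℤ) : OO n t) ∈ cjI b := Ideal.mul_le_right h2
    have h4 : ((s * NI b : ℤ) : OO n t) ∈ cjI b := by
      push_cast
      exact Ideal.mul_mem_left _ _ (Pcu_nu b)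
    have e : v = (v - ((s * NI b : ℤ) : OO n t)) + ((s * NI b : ℤ) : OO n t) := by ring
    rw [e]
    exact Ideal.add_mem _ h3 h4
  · exact absurd (if_neg h2) h

/-- `dl(ν v) = 1` iff `v ∈ pp`, for `ν` prime to `3`. -/
private lemma Pcu_dl [Ram3 n t] {ν : ℕ} (hν : ν.Coprime 3) (v : OO n t) :
    zs ((ν : OO n t) * v) = 0 ↔ v ∈ pp n t := by
  rw [zs_zero]
  constructor
  · intro h
    obtain ⟨a, c, h1⟩ := Pcu_bez (n := n) (t := t) hν
    have h3 : (3 : OO n t) ∈ pp n t := Ideal.subset_span (by simp)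
    have e : v = (a : OO n t) * ((ν : OO n t) * v) + ((c : OO n t) * v) * 3 := by
      push_cast at h1
      linear_combination (-v) * h1
    rw [e]
    exact Ideal.add_mem _ (Ideal.mul_mem_left _ _ h) (Ideal.mul_mem_left _ _ h3)
  · intro h
    exact Ideal.mul_mem_left _ _ h

/-- `v ∈ B`, `v ∈ pp` implies `v ∈ pp B`. -/
private lemma Pcu_pp [Ram3 n t] {b : Ideal (OO n t)} (hν : (NI b).Coprime 3) {v : OO n t}
    (hv : v ∈ cjI b) (h : v ∈ pp n t) : v ∈ pp n t * cjI b := by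
  obtain ⟨a, c, h1⟩ := Pcu_bez (n := n) (t := t) hν
  have h3 : (3 : OO n t) ∈ pp n t := Ideal.subset_span (by simp)
  have e : v = (a : OO n t) * (v * ((NI b : ℕ) : OO n t)) + (c : OO n t) * (3 * v) := by
    push_cast at h1
    linear_combination (-v) * h1
  rw [e]
  exact Ideal.add_mem _ (Ideal.mul_mem_left _ _ (Ideal.mul_mem_mul h (Pcu_nu b)))
    (Ideal.mul_mem_left _ _ (Ideal.mul_mem_mul h3 hv))

private lemma Pcu_cp [SqN n t] {f : ℕ} (hf : 0 < f) {b : Ideal (OO n t)} (hb0 : b ≠ ⊥)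
    (h : PrI b (3 * f)) : (NI b).Coprime f ∧ (NI b).Coprime 3 ∧ 0 < NI b := by
  have h1 := ((aO6 n t).2.2.1 (3 * f) b (by omega)).1 h
  refine ⟨Nat.Coprime.coprime_dvd_right (dvd_mul_left f 3) h1,
    Nat.Coprime.coprime_dvd_right (dvd_mul_right 3 f) h1, Nat.pos_of_ne_zero fun h0 => hb0 ?_⟩
  exact ((aO2 n t).2.2.2.2.2.1 b).1 h0

/-- The identity for `Lg`. -/
private lemma Pcu_main [Ram3 n t] (hR : DR.C.S_Rix) {f : ℕ} {b b0 : Ideal (OO n t)} {α α' : OO n t}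
    (c1 : (NI b).Coprime f) (c0 : (NI b0).Coprime f) (c3 : (NI b0).Coprime 3) (p1 : 0 < NI b)
    (p0 : 0 < NI b0) (hα : α ≠ 0) (hα' : α' ≠ 0) (hc : Cop α f) (hc' : Cop α' f)
    (hd : (f : OO n t) ∣ α - α') (he : sp α' * (pp n t * b) = sp α * b0) (z : ℂ) :
    Lg 3 f b0 1 dl z = toC α' / toC α * Lg 3 f b 1 (fun _ => 1) (3 * z) := by
  have e1 : sp ((NI b : ℕ) : OO n t) = b * cjI b := ((aO3 n t).2.2.1 b).2.2.symm
  have e0 : sp ((NI b0 : ℕ) : OO n t) = b0 * cjI b0 := ((aO3 n t).2.2.1 b0).2.2.symm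
  have hsp : ∀ x y : OO n t, sp x * sp y = sp (x * y) := fun x y =>
    Ideal.span_singleton_mul_span_singleton x y
  have hid : sp (α * ((NI b0 : ℕ) : OO n t)) * cjI b =
      sp (α' * ((NI b : ℕ) : OO n t)) * (pp n t * cjI b0) := by
    rw [← hsp, ← hsp, e1, e0]
    calc sp α * (b0 * cjI b0) * cjI b = (sp α * b0) * (cjI b * cjI b0) := by ring
      _ = (sp α' * (pp n t * b)) * (cjI b * cjI b0) := by rw [he]
      _ = _ := by ring
  have hnm : 3 * (Nm α' * NI b) = Nm α * NI b0 := by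
    have h := congrArg (fun I : Ideal (OO n t) => (NI I : ℤ)) he
    change ((NI (sp α' * (pp n t * b)) : ℕ) : ℤ) = ((NI (sp α * b0) : ℕ) : ℤ) at h
    rw [(aO2 n t).2.2.2.2.1, (aO2 n t).2.2.2.2.1, (aO2 n t).2.2.2.2.1, NI_pp] at h
    push_cast at h
    rw [(aO2 n t).2.2.2.1, (aO2 n t).2.2.2.1] at h
    linear_combination h
  have hne : ∀ j : ℕ, 0 < j → ((j : ℕ) : OO n t) ≠ 0 := by
    intro j hj h0
    have h1 := congrArg QuadraticAlgebra.re h0
    rw [re_nat] at h1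
    have h2 : (j : ℤ) = 0 := h1
    omega
  have hA0 : α * ((NI b0 : ℕ) : OO n t) ≠ 0 := mul_ne_zero hα (hne _ p0)
  have hA0' : α' * ((NI b : ℕ) : OO n t) ≠ 0 := mul_ne_zero hα' (hne _ p1)
  have hA : ∀ y : OO n t, (f : OO n t) ∣ α * ((NI b0 : ℕ) : OO n t) * y → (f : OO n t) ∣ y := by
    intro y hy
    rw [mul_assoc] at hy
    exact Pcu_dv c0 (Pcu_dva hc hy)
  have hA' : ∀ y : OO n t, (f : OO n t) ∣ α' * ((NI b : ℕ) : OO n t) * y → (f : OO n t) ∣ y := by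
    intro y hy
    rw [mul_assoc] at hy
    exact Pcu_dv c1 (Pcu_dva hc' hy)
  have nz1 : (Nm α : ℤ) ≠ 0 := (Nm_pos hα).ne'
  have nz2 : (Nm α' : ℤ) ≠ 0 := (Nm_pos hα').ne'
  have q1 : (NI b : ℂ) ≠ 0 := by exact_mod_cast p1.ne'
  have q0 : (NI b0 : ℂ) ≠ 0 := by exact_mod_cast p0.ne'
  have q3 : ((Nm α : ℤ) : ℂ) ≠ 0 := by exact_mod_cast nz1
  have q4 : ((Nm α' : ℤ) : ℂ) ≠ 0 := by exact_mod_cast nz2
  have q5 : toC α ≠ 0 := toC_ne hα
  have hnmC : 3 * (((Nm α' : ℤ) : ℂ) * NI b) = ((Nm α : ℤ) : ℂ) * NI b0 := by exact_mod_cast hnm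
  have key := hR n t (α * ((NI b0 : ℕ) : OO n t)) (α' * ((NI b : ℕ) : OO n t)) (cjI b)
    (pp n t * cjI b0) (fun v => s0 f b0 1 v * dl ((NI b0 : OO n t) * v))
    (fun u => s0 f b 1 u * (fun _ => (1 : ℂ)) ((NI b : OO n t) * u)) (z / ((3 : ℕ) : ℂ) / NI b0)
    hA0 hA0' hid ?_ ?_ ?_
  · unfold Lg
    rw [key, toC_mul, toC_mul, toC_nat, toC_nat, Nm_mul, Nm_mul, Nm_nat, Nm_nat]
    have e2 : ((Nm α * (NI b0 : ℤ) ^ 2 : ℤ) : ℂ) / ((Nm α' * (NI b : ℤ) ^ 2 : ℤ) : ℂ) *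
        (z / ((3 : ℕ) : ℂ) / NI b0) = 3 * z / ((3 : ℕ) : ℂ) / NI b := by
      push_cast
      field_simp
      linear_combination (-z) * hnmC
    rw [e2]
    field_simp
  · intro v hv
    by_contra h
    have h1 : s0 f b0 1 v ≠ 0 := left_ne_zero_of_mul h
    have h3 : dl ((NI b0 : OO n t) * v) ≠ 0 := right_ne_zero_of_mul h
    refine hv (Pcu_pp c3 (Pcu_mem0 h1) ?_)
    by_contra h4
    unfold dl at h3
    exact h3 (if_neg fun h5 => h4 ((Pcu_dl c3 v).1 h5))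
  · intro u hu
    by_contra h
    exact hu (Pcu_mem0 (left_ne_zero_of_mul h))
  · intro u hu v hv h
    have hv' : v ∈ cjI b0 := Ideal.mul_le_right hv
    have hv2 : v ∈ pp n t := Ideal.mul_le_left hv
    have e2 : s0 f b0 1 v = s0 f b 1 u := by
      refine Pcu_s0 c0 c1 hA hA' ?_ hu hv' h
      have e : α * ((NI b0 : ℕ) : OO n t) * ((1 * NI b : ℤ) : OO n t) -
          α' * ((NI b : ℕ) : OO n t) * ((1 * NI b0 : ℤ) : OO n t) =
          (α - α') * (((NI b : ℕ) : OO n t) * ((NI b0 : ℕ) : OO n t)) := by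
        push_cast
        ring
      rw [e]
      exact Dvd.dvd.mul_right hd _
    have e3 : dl ((NI b0 : OO n t) * v) = 1 := by
      unfold dl
      rw [if_pos ((Pcu_dl c3 v).2 hv2)]
    change s0 f b0 1 v * dl ((NI b0 : OO n t) * v) = s0 f b 1 u * 1
    rw [e2, e3]

theorem tPcu (hR : DR.C.S_Rix) : S_Pcu := by
  intro n t _ f m b b0 α α' hm hP
  have hf : 0 < f := hm.pos
  obtain ⟨c1, d1, p1⟩ := Pcu_cp hf hP.fb.ne hP.fb.prm
  obtain ⟨c0, d0, p0⟩ := Pcu_cp hf hP.fb0.ne hP.fb0.prm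
  obtain ⟨cm, dm, pm⟩ := Pcu_cp hf hm.ne hm.prm
  have hc : Cop α f := by
    refine cop_congr (j := f) (a := α') ?_ hP.cop
    rw [← neg_sub]
    exact hP.con.neg_right
  have hmul : ∀ a : Ideal (OO n t), NI (m * a) = NI m * NI a := fun a => (aO2 n t).2.2.2.2.1 m a
  have main1 : ∀ z : ℂ, Lg 3 f b0 1 dl z = toC α' / toC α * Lg 3 f b 1 (fun _ => 1) (3 * z) :=
    fun z => Pcu_main hR c1 c0 d0 p1 p0 hP.ne hP.ne' hc hP.cop hP.con hP.eq z
  refine ⟨main1, fun z => ?_⟩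
  have he : sp α' * (pp n t * (m * b)) = sp α * (m * b0) := by
    calc sp α' * (pp n t * (m * b)) = m * (sp α' * (pp n t * b)) := by ring
      _ = m * (sp α * b0) := by rw [hP.eq]
      _ = _ := by ring
  have main2 := Pcu_main hR (b := m * b) (b0 := m * b0) (f := f) (α := α) (α' := α')
    (by rw [hmul]; exact cm.mul_left c1) (by rw [hmul]; exact cm.mul_left c0)
    (by rw [hmul]; exact dm.mul_left d0) (by rw [hmul]; exact Nat.mul_pos pm p1)
    (by rw [hmul]; exact Nat.mul_pos pm p0) hP.ne hP.ne' hc hP.cop hP.con he z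
  unfold Hg
  rw [main2, main1]
  have e : (3 : ℂ) * (NI m * z) = NI m * (3 * z) := by ring
  rw [e]
  ring

end Pool.Agent.DM.DU.C
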