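import Pool.Agent.Lib.DU.C.Spec9
import Pool.Agent.Lib.DM.CV.Bas

/-!
# Part C for DU (`3` ramified): Rpu, `E_b` and `VU` (author helper86)
-/

set_option autoImplicit false

open scoped Pointwise Topology nonZeroDivisors
open Filter

noncomputable section

namespace Pool.Agent.DM.DU.C

open Pool.Agent.MuZ Pool.Agent.FW NumberField IsDedekindDomain Pool.Agent.DM Pool.Agent.DM.DU
open Pool.Agent.DI (io ofC io_inj exists_io io_ofC ofC_io VP MP UP TP ex)
open Pool.Agent.DN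
open Pool.Agent.DN.C (rsum PerO Th)
open Pool.Agent.DS.C (ftp Ts Hs Pf h0 T0 Lg Hg s0)

/-- The denominator of `r/3`. -/
private theorem Rpu_den {r : ℚ} {N : ℕ} (h3 : N.Coprime 3) (hr : r.den.Coprime N) :
    (r / 3).den.Coprime N := by
  have h1 : (r / 3).den ∣ r.den * 3 := by
    have h2 := Rat.mul_den_dvd r (3⁻¹)
    have h4 : ((3 : ℚ)⁻¹).den = 3 := by norm_num
    rw [h4] at h2
    rwa [div_eq_mul_inv]
  exact Nat.Coprime.coprime_dvd_left h1 (Nat.Coprime.mul_left hr h3.symm)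

theorem tRpu (hR : DS.S_R1) (hL : DS.C.S_Lh) (hZ : S_Zsx) : S_Rpu := by
  intro n t _ f k m b hm hb r hr
  have hfok := hm.toFok
  have hf0 := hm.pos
  obtain ⟨-, -, -, -, -, -, -, hm3, -⟩ := w_fm hm
  obtain ⟨hbG, -, hb2, hb3, hbf, hmb⟩ := w_fb hm hb
  have hx : (r / 3).den.Coprime (NI m) := Rpu_den hm3 hr
  obtain ⟨-, -, -, hT⟩ := hZ n t
  obtain ⟨-, hT2⟩ := hT f hfok
  have hsys := (hT2 1 (by norm_num)).sys
  obtain ⟨-, frb, -⟩ := fra hR hm.g hb.g
  -- the terms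
  have key : ∀ α ∈ tm n t f, io (etaM (3 * f) m (sp α * b) (r / 3)) * fr b =
      (toC α)⁻¹ * h0 (3 * f) m (sp α * b) (r / 3) := by
    intro α hα
    obtain ⟨hα1, hα3⟩ := hsys α hα
    have hαc : Cop α (3 * f) := CV_cop_mul.2 ⟨hα3, CV_cop_of_dvd hα1⟩
    have hα0 : α ≠ 0 := CV_ne_of_cop (by norm_num) hα3
    have hF : FB f (sp α * b) := w_fb_mul (w_fb_sp hf0 hαc) hb
    have h4 : (4 : OO n t) ∣ α - 1 := by
      have h5 := CV_cast_dvd (dvd_trans ⟨5, by norm_num⟩ hfok.dvd : 4 ∣ f) hα1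
      rwa [w_cast4] at h5
    have hA : toC α ≠ 0 := toC_ne hα0
    have h1 := (hom1 hbG.ne hb2 hα0 h4).1
    obtain ⟨f0, g0, -, -, -, l1, -, -⟩ := fra hR hm.g hF.g
    have h2 := (gC4 hR n t (3 * f) m (sp α * b) hm.g hF.g (r / 3).num (r / 3).den (r / 3).pos hx).2.1
    have e0 : (((r / 3).num : ℚ) / ((r / 3).den : ℚ)) = r / 3 := Rat.num_div_den _
    rw [e0] at h2
    have h3 := (hL n t (3 * f) m (sp α * b) hm.g hF.g).2.2.2.2 (r / 3)
    rw [h2, l1, h3, h1]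
    field_simp
  unfold etE VU
  rw [map_sum, Finset.sum_mul]
  refine Finset.sum_congr rfl fun α hα => ?_
  rw [map_mul, map_pow, mul_assoc, key α hα]
  unfold zc
  rw [map_intCast]

end Pool.Agent.DM.DU.C
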