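import Pool.Agent.Lib.DU.C.Spec9

/-!
# Part C for DU (`3` ramified), module Uu: the identities for `VT`
-/

set_option autoImplicit false

open scoped Pointwise Topology nonZeroDivisors
open Filter

noncomputable section

namespace Pool.Agent.DM.DU.C

open Pool.Agent.MuZ Pool.Agent.FW NumberField IsDedekindDomain Pool.Agent.DM Pool.Agent.DM.DU
open Pool.Agent.DI (io ofC io_inj exists_io io_ofC ofC_io VP MP UP TP ex)
open Pool.Agent.DN
open Pool.Agent.DN.C (rsum PerO Th)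
open Pool.Agent.DS.C (ftp Ts Hs Pf h0 T0 Lg Hg s0)

private theorem Uu_sq3 (x : ℤ) (h : IsCoprime x ((3 : ℕ) : ℤ)) : ((3 : ℕ) : ℤ) ∣ x ^ 2 - 1 := by
  have h1 : ¬ (3 : ℤ) ∣ x := by
    intro hd
    have h2 : IsUnit ((3 : ℕ) : ℤ) := h.isUnit_of_dvd' hd dvd_rfl
    rw [Int.isUnit_iff] at h2
    omega
  have h2 : x % 3 = 1 ∨ x % 3 = 2 := by omega
  rcases h2 with h2 | h2
  · obtain ⟨y, hy⟩ : ∃ y : ℤ, x = 3 * y + 1 := ⟨x / 3, by omega⟩
    exact ⟨3 * y ^ 2 + 2 * y, by rw [hy]; push_cast; ring⟩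
  · obtain ⟨y, hy⟩ : ∃ y : ℤ, x = 3 * y + 2 := ⟨x / 3, by omega⟩
    exact ⟨3 * y ^ 2 + 4 * y + 1, by rw [hy]; push_cast; ring⟩

private theorem Uu_pf {n t : ℕ} [Ram3 n t] {f : ℕ} {m b : Ideal (OO n t)} (hm : FM f m)
    (hb : FB f b) : Pf 3 f m b :=
  ⟨by norm_num, hm.pos, hm.cop, Uu_sq3, hm.ne, hb.ne, CV_pri_dvd hm.prm (dvd_mul_right 3 f),
    CV_pri_dvd hb.prm (dvd_mul_right 3 f)⟩

/-- The image of `z` is in the upper half plane. -/
private theorem Uu_im (k : ℤ) {z : ℂ} (hz : 0 < z.im) : 0 < (z / ((k : ℂ) * z + 1)).im := by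
  have h0 : (k : ℂ) * z + 1 ≠ 0 := by
    intro h
    have h1 := congrArg Complex.im h
    simp only [Complex.add_im, Complex.mul_im, Complex.intCast_re, Complex.intCast_im, zero_mul,
      add_zero, Complex.one_im, Complex.zero_im] at h1
    rcases mul_eq_zero.1 h1 with h2 | h2
    · have h3 : k = 0 := by exact_mod_cast h2
      rw [h3] at h
      simp at h
    · exact hz.ne' h2
  have e : (z / ((k : ℂ) * z + 1)).im = z.im / Complex.normSq ((k : ℂ) * z + 1) := by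
    rw [Complex.div_im]
    simp only [Complex.add_im, Complex.mul_im, Complex.add_re, Complex.mul_re, Complex.intCast_re,
      Complex.intCast_im, Complex.one_im, Complex.one_re]
    ring
  rw [e]
  exact div_pos hz (Complex.normSq_pos.2 h0)

private theorem Uu_im1 (s : ℤ) (M : ℕ) {z : ℂ} (hz : 0 < z.im) : 0 < (z / (s * M * z + 1)).im := by
  have h := Uu_im (s * M) hz
  push_cast at h
  exact h

private theorem Uu_im3 (s : ℤ) (M : ℕ) {z : ℂ} (hz : 0 < z.im) :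
    0 < (z / (s * (3 * M) * z + 1)).im := by
  have h := Uu_im (s * (3 * M)) hz
  push_cast at h
  exact h

/-- `VT` is the function `Hg`. -/
private theorem Uu_vt (hE : DS.C.S_Etg) (hZ : S_Zsx) {n t : ℕ} [Ram3 n t] {f : ℕ}
    {m b : Ideal (OO n t)} (hm : FM f m) (hb : FB f b) {k : ℕ} (hk : 0 < k) {z : ℂ}
    (hz : 0 < z.im) : VT f k m b z = (3 * f : ℕ) * Hg 3 f m b 1 (zc k) z := by
  have hT := ((hZ n t).2.2.2 f hm.toFok).2 k hk
  have h := hE n t 3 3 f m b (tm n t f) (zc k) (Uu_pf hm hb) (by norm_num) hT z hz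
  rw [← h]
  unfold VT
  norm_num

/-- The level. -/
private theorem Uu_lv {n t : ℕ} [Ram3 n t] {f M : ℕ} {m b : Ideal (OO n t)}
    (h : IsLv f m {b} M) : ∃ c : ℕ, Dk n t / 3 * f ^ 2 * NI (m * b) * c = M := by
  obtain ⟨d, hd⟩ := h.dvd
  refine ⟨(NI m * NI b) ^ 2 * d, ?_⟩
  rw [CV_NI_mul, hd]
  unfold lev
  rw [Finset.prod_singleton]
  ring

private theorem Uu_zt {s : ℤ} (hs : s = 1 ∨ s = -1) {N : ℕ} (hN : N.Coprime 3) :
    1 - zt3 s N ≠ 0 := by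
  intro h
  have h1 : zt3 s N = 1 := (sub_eq_zero.1 h).symm
  unfold zt3 ex at h1
  rw [Complex.exp_eq_one_iff] at h1
  obtain ⟨j, hj⟩ := h1
  have hpi : (2 * Real.pi * Complex.I : ℂ) ≠ 0 := Complex.two_pi_I_ne_zero
  have h2 : (-(s * N) / 3 : ℂ) = j := by
    refine mul_left_cancel₀ hpi ?_
    rw [hj]
    ring
  have h3 : (-(s * N) : ℂ) = 3 * j := by
    rw [← h2]
    ring
  have h4 : -(s * (N : ℤ)) = 3 * j := by exact_mod_cast h3
  have h5 : (3 : ℤ) ∣ N := by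
    rcases hs with rfl | rfl
    · exact ⟨-j, by linarith⟩
    · exact ⟨j, by linarith⟩
  have h6 : 3 ∣ N := by exact_mod_cast h5
  have h7 := Nat.dvd_gcd h6 (dvd_refl 3)
  rw [hN] at h7
  omega

/-- **The identities for `VT`.** -/
theorem tUu (hH : S_Hgu) (hP : S_Pcu) (hE : DS.C.S_Etg) (hZ : S_Zsx) (hN : S_Lin) : S_Uu := by
  intro n t _ f M m b hm hb hM s hs
  obtain ⟨c, hc⟩ := Uu_lv hM
  obtain ⟨H1, ⟨C2, H2⟩, ⟨C3, H3⟩⟩ := hH n t f M c m b hm hb hM.one hc s hs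
  refine ⟨fun k hk => ?_, ⟨(3 * f : ℕ) * C2, fun z hz => ?_⟩, ?_⟩
  · obtain ⟨C, hC⟩ := H1 k hk
    have hk0 : 0 < k := by omega
    refine ⟨(3 * f : ℕ) * C, fun z hz => ?_⟩
    rw [Uu_vt hE hZ hm hb hk0 (Uu_im3 s M hz), Uu_vt hE hZ hm hb hk0 hz, hC z hz]
    ring
  · rw [Uu_vt hE hZ hm hb one_pos (Uu_im1 s M hz), Uu_vt hE hZ hm hb one_pos hz, H2 z hz]
    ring
  · intro b0 α α' hp hM0
    obtain ⟨c0, hc0⟩ := Uu_lv hM0
    obtain ⟨-, -, ⟨C0, H0⟩⟩ := hH n t f M c0 m b0 hm hp.fb0 hM.one hc0 s hs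
    have hα : toC α ≠ 0 := toC_ne hp.ne
    have hα' : toC α' ≠ 0 := toC_ne hp.ne'
    have hcop : (NI (m * b0)).Coprime 3 := (CV_NI_cop (by norm_num)).1
      (CV_pri_mul (CV_pri_dvd hm.prm (dvd_mul_right 3 f))
        (CV_pri_dvd hp.fb0.prm (dvd_mul_right 3 f)))
    have h1 := Uu_zt hs hcop
    refine ⟨(3 * f : ℕ) * (C3 - toC α / toC α' * ((1 - zt3 s (NI (m * b))) /
      (1 - zt3 s (NI (m * b0)))) * C0), fun z hz => ?_⟩
    have hw : 0 < (z / 3).im := by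
      rw [Complex.div_ofNat_im]
      exact div_pos hz (by norm_num)
    have hdl : (dl : OO n t → ℂ) = fun v => 1 * (fun _ => (1 : ℂ)) v + (-1) * zc 2 v := by
      funext v
      rw [(hZ n t).2.2.1 v]
      ring
    have hA : Hg 3 f m b0 1 dl (z / 3) =
        Hg 3 f m b0 1 (fun _ => 1) (z / 3) - Hg 3 f m b0 1 (zc 2) (z / 3) := by
      rw [hdl, hN n t 3 3 f m b0 1 (fun _ => 1) (zc 2) 1 (-1) (z / 3) (Uu_pf hm hp.fb0)
        (by norm_num) (fun _ _ => rfl) ((hZ n t).1 2) hw]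
      ring
    have hF := (hP n t f m b b0 α α' hm hp).2 (z / 3)
    have e3 : 3 * (z / 3) = z := by ring
    rw [e3, hA] at hF
    rw [Uu_vt hE hZ hm hb two_pos (Uu_im1 s M hz), Uu_vt hE hZ hm hb two_pos hz,
      Uu_vt hE hZ hm hp.fb0 two_pos (Uu_im1 s M hw), Uu_vt hE hZ hm hp.fb0 two_pos hw, H3 z hz,
      H0 (z / 3) hw]
    have hF' : Hg 3 f m b 1 (fun _ => 1) z = toC α / toC α' *
        (Hg 3 f m b0 1 (fun _ => 1) (z / 3) - Hg 3 f m b0 1 (zc 2) (z / 3)) := by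
      rw [hF]
      field_simp
    rw [hF']
    field_simp
    ring

end Pool.Agent.DM.DU.C
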