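import Pool.Agent.Lib.DU.C.Spec9

/-!
# Part C for DU: the identities for the values
-/

set_option autoImplicit false

open scoped Pointwise Topology nonZeroDivisors
open Filter

noncomputable section

namespace Pool.Agent.DM.DU.C

open Pool.Agent.MuZ Pool.Agent.FW NumberField IsDedekindDomain Pool.Agent.DM Pool.Agent.DM.DU
open Pool.Agent.DI (io ofC io_inj exists_io io_ofC ofC_io VP MP UP TP ex)
open Pool.Agent.DN
open Pool.Agent.DN.C (rsum PerO Th)
open Pool.Agent.DS.C (ftp Ts Hs Pf h0 T0 Lg Hg s0)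

/-- The limit of `VT` along `(1 0; N 1)(r + i y)`. -/
private theorem Vu_lim (hE : S_Elz) (hZ : S_Zsx) {n t : ℕ} [Ram3 n t] {f : ℕ} (k : ℕ)
    {m b : Ideal (OO n t)} (hm : FM f m) (hb : FB f b) (N : ℤ) (r : ℚ)
    (h : (N : ℚ) * r + 1 ≠ 0) :
    Tendsto (fun y : ℝ => VT f k m b ((r + y * Complex.I) / (N * (r + y * Complex.I) + 1)))
      (𝓝[>] 0) (𝓝 (VU f k m b (r / (N * r + 1) / 3))) := by
  have hs := ((hZ n t).2.2.2 f hm.toFok).2 1 one_pos
  have h1 := hE n t 3 3 f N m b (tm n t f) (zc k) (by norm_num) hm.g hb.g hs.sys r h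
  have h3 : ((3 : ℕ) : ℚ) = 3 := by norm_num
  have h3' : ((3 : ℕ) : ℂ) = 3 := by norm_num
  rw [h3, h3'] at h1
  exact h1

/-- The limit of `VT` along `r + i y`. -/
private theorem Vu_lim0 (hE : S_Elz) (hZ : S_Zsx) {n t : ℕ} [Ram3 n t] {f : ℕ} (k : ℕ)
    {m b : Ideal (OO n t)} (hm : FM f m) (hb : FB f b) (r : ℚ) :
    Tendsto (fun y : ℝ => VT f k m b (r + y * Complex.I)) (𝓝[>] 0)
      (𝓝 (VU f k m b (r / 3))) := by
  have h := Vu_lim hE hZ k hm hb 0 r (by simp)
  simpa using h

/-- `y / 3` tends to `0` from above. -/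
private theorem Vu_third : Tendsto (fun y : ℝ => y / 3) (𝓝[>] 0) (𝓝[>] 0) := by
  refine tendsto_nhdsWithin_iff.2 ⟨?_, ?_⟩
  · have h : Tendsto (fun y : ℝ => y / 3) (𝓝 0) (𝓝 (0 / 3)) :=
      (continuous_id.div_const 3).tendsto 0
    rw [zero_div] at h
    exact h.mono_left nhdsWithin_le_nhds
  · filter_upwards [self_mem_nhdsWithin] with y hy
    exact Set.mem_Ioi.2 (div_pos (Set.mem_Ioi.1 hy) (by norm_num))

/-- The imaginary part of `r + i y`. -/
private theorem Vu_im (r : ℚ) {y : ℝ} (hy : 0 < y) : 0 < ((r : ℂ) + y * Complex.I).im := by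
  have : ((r : ℂ) + y * Complex.I).im = y := by
    simp
  rw [this]
  exact hy

/-- **The identities for the values.** -/
theorem tVu (hU : S_Uu) (hE : S_Elz) (hZ : S_Zsx) : S_Vu := by
  intro n t _ f M m b hm hb hL s hs
  obtain ⟨h1, h2, h3⟩ := hU n t f M m b hm hb hL s hs
  refine ⟨?_, ?_, ?_⟩
  · intro k hk
    obtain ⟨C, hC⟩ := h1 k hk
    have key : ∀ r : ℚ, (s * (3 * M) : ℚ) * r + 1 ≠ 0 →
        VU f k m b (r / (s * (3 * M) * r + 1) / 3) = VU f k m b (r / 3) + C := by
      intro r hr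
      have l1 := Vu_lim hE hZ k hm hb (s * (3 * M)) r (by push_cast; exact hr)
      have l2 := (Vu_lim0 hE hZ k hm hb r).add_const C
      have e : (fun y : ℝ => VT f k m b ((r + y * Complex.I) /
          ((s * (3 * M) : ℤ) * (r + y * Complex.I) + 1))) =ᶠ[𝓝[>] 0]
          fun y : ℝ => VT f k m b (r + y * Complex.I) + C := by
        filter_upwards [self_mem_nhdsWithin] with y hy
        have := hC _ (Vu_im r hy)
        push_cast
        exact this
      have h := tendsto_nhds_unique (l1.congr' e) l2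
      push_cast at h
      exact h
    have h0 := key 0 (by simp)
    have hC0 : C = 0 := by
      simpa using h0
    intro r hr
    rw [key r hr, hC0, add_zero]
  · obtain ⟨C, hC⟩ := h2
    have key : ∀ r : ℚ, (s * M : ℚ) * r + 1 ≠ 0 →
        VU f 1 m b (r / (s * M * r + 1) / 3) =
          zt3 s (NI (m * b)) * VU f 1 m b (r / 3) + C := by
      intro r hr
      have l1 := Vu_lim hE hZ 1 hm hb (s * M) r (by push_cast; exact hr)
      have l2 := ((Vu_lim0 hE hZ 1 hm hb r).const_mul (zt3 s (NI (m * b)))).add_const C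
      have e : (fun y : ℝ => VT f 1 m b ((r + y * Complex.I) /
          ((s * M : ℤ) * (r + y * Complex.I) + 1))) =ᶠ[𝓝[>] 0]
          fun y : ℝ => zt3 s (NI (m * b)) * VT f 1 m b (r + y * Complex.I) + C := by
        filter_upwards [self_mem_nhdsWithin] with y hy
        have := hC _ (Vu_im r hy)
        push_cast
        exact this
      have h := tendsto_nhds_unique (l1.congr' e) l2
      push_cast at h
      exact h
    have h0 := key 0 (by simp)
    simp only [zero_div] at h0
    intro r hr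
    linear_combination key r hr - h0
  · intro b0 α α' hp hL0
    obtain ⟨C, hC⟩ := h3 b0 α α' hp hL0
    set K : ℂ := toC α / (3 * toC α') *
        ((1 - zt3 s (NI (m * b))) / (1 - zt3 s (NI (m * b0)))) with hK
    have key : ∀ r : ℚ, (s * M : ℚ) * r + 1 ≠ 0 → (s * M : ℚ) * (r / 3) + 1 ≠ 0 →
        VU f 2 m b (r / (s * M * r + 1) / 3) =
          zt3 s (NI (m * b)) * VU f 2 m b (r / 3) + K *
            (3 * VU f 2 m b0 ((r / 3) / (s * M * (r / 3) + 1) / 3) -
              (2 + zt3 s (NI (m * b0))) * VU f 2 m b0 (r / 3 / 3)) + C := by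
      intro r hr hr3
      have l1 := Vu_lim hE hZ 2 hm hb (s * M) r (by push_cast; exact hr)
      have l2 := (Vu_lim0 hE hZ 2 hm hb r).const_mul (zt3 s (NI (m * b)))
      have l3 := (Vu_lim hE hZ 2 hm hp.fb0 (s * M) (r / 3) (by push_cast; exact hr3)).comp
        Vu_third
      have l4 := (Vu_lim0 hE hZ 2 hm hp.fb0 (r / 3)).comp Vu_third
      have l5 := ((l2.add (((l3.const_mul 3).sub
        (l4.const_mul (2 + zt3 s (NI (m * b0))))).const_mul K)).add_const C)
      have e : (fun y : ℝ => VT f 2 m b ((r + y * Complex.I) /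
          ((s * M : ℤ) * (r + y * Complex.I) + 1))) =ᶠ[𝓝[>] 0]
          fun y : ℝ => zt3 s (NI (m * b)) * VT f 2 m b (r + y * Complex.I) +
            K * (3 * ((fun y : ℝ => VT f 2 m b0 (((r / 3 : ℚ) + y * Complex.I) /
              ((s * M : ℤ) * ((r / 3 : ℚ) + y * Complex.I) + 1))) ∘ fun y : ℝ => y / 3) y -
              (2 + zt3 s (NI (m * b0))) *
              ((fun y : ℝ => VT f 2 m b0 ((r / 3 : ℚ) + y * Complex.I)) ∘ fun y : ℝ => y / 3) y)
            + C := by
        filter_upwards [self_mem_nhdsWithin] with y hy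
        have := hC _ (Vu_im r hy)
        have e1 : ((r / 3 : ℚ) : ℂ) + ((y / 3 : ℝ) : ℂ) * Complex.I
            = (r + y * Complex.I) / 3 := by
          push_cast
          ring
        simp only [Function.comp]
        rw [e1]
        push_cast
        exact this
      have h := tendsto_nhds_unique (l1.congr' e) l5
      push_cast at h
      exact h
    have h0 := key 0 (by simp) (by simp)
    simp only [zero_div] at h0
    intro r hr hr3
    linear_combination key r hr hr3 - h0

end Pool.Agent.DM.DU.C
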