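import Pool.Agent.Lib.DU.C.Spec9

/-!
# Part C for DU (`3` ramified), module Zsx: the functions on `O/3` and the system `tm`
-/

set_option autoImplicit false

open scoped Pointwise Topology nonZeroDivisors
open Filter

noncomputable section

namespace Pool.Agent.DM.DU.C

open Pool.Agent.MuZ Pool.Agent.FW NumberField IsDedekindDomain Pool.Agent.DM Pool.Agent.DM.DU
open Pool.Agent.DI (io ofC io_inj exists_io io_ofC ofC_io VP MP UP TP ex)
open Pool.Agent.DN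
open Pool.Agent.DN.C (rsum PerO Th)
open Pool.Agent.DS.C (ftp Ts Hs Pf h0 T0 Lg Hg s0)

variable {n t : ℕ}

private theorem f_sq {f : ℕ} (h : f.Coprime 3) : (3 : ℤ) ∣ (f : ℤ) ^ 2 - 1 := by
  have h3 : ¬ 3 ∣ f := by
    intro hd
    have h1 := Nat.dvd_gcd hd (dvd_refl 3)
    rw [Nat.Coprime.gcd_eq_one h] at h1
    omega
  obtain ⟨a, ha⟩ : ∃ a : ℤ, (f : ℤ) = 3 * a + 1 ∨ (f : ℤ) = 3 * a + 2 := ⟨(f / 3 : ℕ), by omega⟩
  rcases ha with ha | ha
  · rw [ha]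
    exact ⟨3 * a ^ 2 + 2 * a, by ring⟩
  · rw [ha]
    exact ⟨3 * a ^ 2 + 4 * a + 1, by ring⟩

private theorem tmv_congr {f : ℕ} (h : f.Coprime 3) (i j : ℕ) :
    ((3 : ℕ) : OO n t) ∣ tmv n t f i j - (⟨i, j⟩ : OO n t) := by
  rw [nat_dvd_iff]
  obtain ⟨c, hc⟩ := f_sq h
  have hf : (f : ℤ) ^ 2 = 1 + 3 * c := by linarith
  constructor
  · rw [QuadraticAlgebra.re_sub]
    change ((3 : ℕ) : ℤ) ∣ (1 + (f : ℤ) ^ 2 * ((i : ℤ) - 1)) - (i : ℤ)
    rw [hf]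
    exact ⟨c * (i - 1), by push_cast; ring⟩
  · rw [QuadraticAlgebra.im_sub]
    change ((3 : ℕ) : ℤ) ∣ ((f : ℤ) ^ 2 * (j : ℤ)) - (j : ℤ)
    rw [hf]
    exact ⟨c * j, by push_cast; ring⟩

private theorem tmv_inj {f : ℕ} (h : f.Coprime 3) {i j i' j' : ℕ} (hi : i < 3) (hj : j < 3) (hi' : i' < 3)
    (hj' : j' < 3) (hd : ((3 : ℕ) : OO n t) ∣ tmv n t f i j - tmv n t f i' j') : i = i' ∧ j = j' := by
  have h1 := tmv_congr (n := n) (t := t) h i j
  have h2 := tmv_congr (n := n) (t := t) h i' j'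
  have h3 : ((3 : ℕ) : OO n t) ∣ (⟨i, j⟩ : OO n t) - ⟨i', j'⟩ := by
    have e : (⟨i, j⟩ : OO n t) - ⟨i', j'⟩ = (tmv n t f i j - tmv n t f i' j') -
        (tmv n t f i j - ⟨i, j⟩) + (tmv n t f i' j' - ⟨i', j'⟩) := by ring
    rw [e]
    exact dvd_add (dvd_sub hd h1) h2
  obtain ⟨h4, h5⟩ := (nat_dvd_iff 3 _).1 h3
  rw [QuadraticAlgebra.re_sub] at h4
  rw [QuadraticAlgebra.im_sub] at h5
  change ((3 : ℕ) : ℤ) ∣ (i : ℤ) - i' at h4
  change ((3 : ℕ) : ℤ) ∣ (j : ℤ) - j' at h5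
  constructor <;> omega

private theorem mem_tm {f : ℕ} {v : OO n t} (h : v ∈ tm n t f) :
    Cop v 3 ∧ ∃ i j : ℕ, i < 3 ∧ j < 3 ∧ tmv n t f i j = v := by
  classical
  unfold tm at h
  rw [Finset.mem_filter, Finset.mem_image] at h
  obtain ⟨⟨⟨i, j⟩, hp, hv⟩, hc⟩ := h
  rw [Finset.mem_product, Finset.mem_range, Finset.mem_range] at hp
  exact ⟨hc, i, j, hp.1, hp.2, hv⟩

private theorem tm_mem {f : ℕ} {i j : ℕ} (hi : i < 3) (hj : j < 3) (h : Cop (tmv n t f i j) 3) :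
    tmv n t f i j ∈ tm n t f := by
  classical
  unfold tm
  rw [Finset.mem_filter, Finset.mem_image]
  refine ⟨⟨(i, j), ?_, rfl⟩, h⟩
  rw [Finset.mem_product, Finset.mem_range, Finset.mem_range]
  exact ⟨hi, hj⟩

private theorem isG  {f : ℕ} (hf : Fok f) : IsG f 1 (tm n t f) where
  mem := by
    intro α hα
    obtain ⟨hc, i, j, -, -, rfl⟩ := mem_tm hα
    refine ⟨?_, hc⟩
    rw [nat_dvd_iff]
    constructor
    · rw [QuadraticAlgebra.re_sub, re_one]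
      change (f : ℤ) ∣ (1 + (f : ℤ) ^ 2 * ((i : ℤ) - 1)) - 1
      exact ⟨f * (i - 1), by ring⟩
    · rw [QuadraticAlgebra.im_sub, im_one]
      change (f : ℤ) ∣ ((f : ℤ) ^ 2 * (j : ℤ)) - 0
      exact ⟨f * j, by ring⟩
  ex := by
    intro v hv hc
    obtain ⟨i, hi3, hi⟩ : ∃ i : ℕ, i < 3 ∧ (3 : ℤ) ∣ v.re - i := ⟨(v.re % 3).toNat, by omega, by omega⟩
    obtain ⟨j, hj3, hj⟩ : ∃ j : ℕ, j < 3 ∧ (3 : ℤ) ∣ v.im - j := ⟨(v.im % 3).toNat, by omega, by omega⟩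
    obtain ⟨c, hc3⟩ := f_sq hf.cop
    have hfc : (f : ℤ) ^ 2 = 1 + 3 * c := by linarith
    obtain ⟨a, ha⟩ := hi
    obtain ⟨b, hb⟩ := hj
    have h3 : ((3 : ℕ) : OO n t) ∣ v - tmv n t f i j := by
      rw [nat_dvd_iff]
      constructor
      · rw [QuadraticAlgebra.re_sub]
        change ((3 : ℕ) : ℤ) ∣ v.re - (1 + (f : ℤ) ^ 2 * ((i : ℤ) - 1))
        rw [hfc]
        refine ⟨a - c * (i - 1), ?_⟩
        push_cast
        linear_combination ha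
      · rw [QuadraticAlgebra.im_sub]
        change ((3 : ℕ) : ℤ) ∣ v.im - (f : ℤ) ^ 2 * (j : ℤ)
        rw [hfc]
        refine ⟨b - c * j, ?_⟩
        push_cast
        linear_combination hb
    refine ⟨tmv n t f i j, tm_mem hi3 hj3 (cop_congr h3 hc), ?_⟩
    obtain ⟨g1, g2⟩ := (nat_dvd_iff 3 _).1 h3
    obtain ⟨g3, g4⟩ := (nat_dvd_iff f _).1 hv
    rw [QuadraticAlgebra.re_sub, re_one] at g3
    rw [QuadraticAlgebra.im_sub, im_one] at g4
    obtain ⟨x, hx⟩ := g3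
    obtain ⟨y, hy⟩ := g4
    have hcop : IsCoprime (f : ℤ) ((3 : ℕ) : ℤ) := Nat.isCoprime_iff_coprime.2 hf.cop
    rw [nat_dvd_iff, pow_one, Nat.cast_mul]
    constructor
    · refine hcop.mul_dvd ?_ g1
      rw [QuadraticAlgebra.re_sub]
      change (f : ℤ) ∣ v.re - (1 + (f : ℤ) ^ 2 * ((i : ℤ) - 1))
      exact ⟨x - f * (i - 1), by linear_combination hx⟩
    · refine hcop.mul_dvd ?_ g2
      rw [QuadraticAlgebra.im_sub]
      change (f : ℤ) ∣ v.im - (f : ℤ) ^ 2 * (j : ℤ)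
      exact ⟨y - f * j, by linear_combination hy⟩
  uni := by
    intro α hα α' hα' h
    obtain ⟨-, i, j, hi, hj, rfl⟩ := mem_tm hα
    obtain ⟨-, i', j', hi', hj', rfl⟩ := mem_tm hα'
    have h3 : ((3 : ℕ) : OO n t) ∣ tmv n t f i j - tmv n t f i' j' := by
      refine dvd_trans ?_ h
      rw [pow_one, Nat.cast_mul]
      exact dvd_mul_left _ _
    obtain ⟨rfl, rfl⟩ := tmv_inj hf.cop hi hj hi' hj' h3
    rfl


private theorem zc_per [Ram3 n t] (k : ℕ) : PerO 3 (zc (n := n) (t := t) k) := by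
  intro v u
  have h3 : (3 : OO n t) ∈ pp n t := Ideal.subset_span (by simp)
  have h : v + ((3 : ℕ) : OO n t) * u - v ∈ pp n t := by
    rw [add_sub_cancel_left, Nat.cast_ofNat]
    exact Ideal.mul_mem_right _ _ h3
  unfold zc
  rw [zs_cong h]

private theorem zc_zero [Ram3 n t] (k : ℕ) (v : OO n t) (hk : 0 < k) (hv : ¬ Cop v 3) : zc k v = 0 := by
  have h : zs v = 0 := by
    rw [zs_zero]
    by_contra h
    exact hv ((cop3_pp v).2 h)
  unfold zc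
  rw [h, Int.cast_zero, zero_pow hk.ne']

theorem tZsx (hS : DM.C.S_Tss) : S_Zsx := by
  intro n t _
  refine ⟨zc_per, zc_zero, fun v => ?_, fun f hf => ⟨isG hf, fun k hk => ?_⟩⟩
  · unfold dl zc
    rcases (zs_ph v).2 with h | h | h
    · rw [h]
      norm_num
    · rw [h]
      norm_num
    · rw [h]
      norm_num
  · exact hS n t f (tm n t f) (zc k) hf.pos hf.cop (isG hf) (zc_per k) (fun v hv => zc_zero k v hk hv)

end Pool.Agent.DM.DU.C
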