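import Pool.Agent.Lib.DS.C.All9
import Pool.Agent.Lib.DM.C.Tss
import Pool.Agent.Lib.DR.C.Rix
import Pool.Agent.Lib.DU.C.C17
import Pool.Agent.Lib.DU.C.Zsx
import Pool.Agent.Lib.DU.C.Lcu
import Pool.Agent.Lib.DU.C.Lin
import Pool.Agent.Lib.DU.C.Hgu
import Pool.Agent.Lib.DU.C.Pcu
import Pool.Agent.Lib.DU.C.Uu
import Pool.Agent.Lib.DU.C.Elz
import Pool.Agent.Lib.DU.C.Vu
import Pool.Agent.Lib.DU.C.Rpu
import Pool.Agent.Lib.DU.C.C9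

/-!
# Part C for DU (`3` ramified): assembly (author helper33)

`aC1`, `aC2`, `aC3`, `aC4`, `aC6`, `aC7`, `aC9` from `DS.S_R1`.
-/

set_option autoImplicit false

noncomputable section

namespace Pool.Agent.DM.DU.C

open Pool.Agent.DN Pool.Agent.DM Pool.Agent.DM.DU

theorem aZsx : S_Zsx := tZsx DM.C.tTss
theorem aLcu : S_Lcu := tLcu aZsx
theorem aLin : S_Lin := tLin
theorem aHgu : S_Hgu := tHgu DS.C.aUg aLcu aLin aZsx
theorem aPcu : S_Pcu := tPcu DR.C.tRix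
theorem aUu : S_Uu := tUu aHgu aPcu DS.C.aEtg aZsx aLin
theorem aElz : S_Elz := tElz DS.C.aLh
theorem aVu : S_Vu := tVu aUu aElz aZsx
theorem aRpu (hR : DS.S_R1) : S_Rpu := tRpu hR DS.C.aLh aZsx

end Pool.Agent.DM.DU.C

namespace Pool.Agent.DM.DU

open Pool.Agent.DN Pool.Agent.DM

theorem aC1 (hR : DS.S_R1) : DU.S_C1 := tC1 hR
theorem aC2 (hR : DS.S_R1) : DU.S_C2 := tC2 hR
theorem aC3 (hR : DS.S_R1) : DU.S_C3 := tC3 hR
theorem aC4 (hR : DS.S_R1) : DU.S_C4 := tC4 hR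
theorem aC6 (hR : DS.S_R1) : DU.S_C6 := tC6 hR
theorem aC7 (hR : DS.S_R1) : DU.S_C7 := tC7 hR
theorem aC9 (hR : DS.S_R1) : DU.S_C9 := C.tC9 hR C.aVu (C.aRpu hR)

end Pool.Agent.DM.DU
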