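import Pool.Agent.Lib.DU.C.Spec9
import Pool.Agent.Lib.DN.CV.Bas

/-!
# Part C for DU, module C9: assembly of `S_C9` (author helper33)
-/

set_option autoImplicit false

open scoped Pointwise Topology nonZeroDivisors
open Filter

noncomputable section

namespace Pool.Agent.DM.DU.C

open Pool.Agent.MuZ Pool.Agent.FW NumberField IsDedekindDomain Pool.Agent.DM Pool.Agent.DM.DU
open Pool.Agent.DI (io ofC io_inj exists_io io_ofC ofC_io VP MP UP TP ex)
open Pool.Agent.DN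
open Pool.Agent.DN.C (rsum PerO Th)
open Pool.Agent.DS.C (ftp Ts Hs Pf h0 T0 Lg Hg s0)

variable {n t : ℕ}

theorem C9_zU (s : ℤ) (N : ℕ) : io (zU s N) = zt3 s N := by
  unfold zU zt3
  rw [map_zpow₀, CV_io_zet (by norm_num : 0 < 3)]
  unfold DI.ex
  rw [← Complex.exp_int_mul]
  congr 1
  push_cast
  ring

theorem tC9 (hR : DS.S_R1) (hV : S_Vu) (hP : S_Rpu) : DU.S_C9 := by
  intro n t _ f M m b hm hb hM s hs
  have hM1 := lv_one hm hM
  have hM2 : 2 ≤ M := by omega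
  have hM3 : M.Coprime 3 := by
    refine Nat.Coprime.symm ((Nat.Prime.coprime_iff_not_dvd Nat.prime_three).2 fun h => ?_)
    have := hM.one
    omega
  -- the denominators
  have hmob : ∀ (K : ℤ), (M : ℤ) ∣ K → ∀ r : ℚ, r.den.Coprime M → (K : ℚ) * r + 1 ≠ 0 ∧
      (r / (K * r + 1) : ℚ).den.Coprime M := by
    intro K hK r hr
    have hG : G0 (M : ℤ) 1 0 K 1 := ⟨by ring, hK⟩
    obtain ⟨-, -, hne, hden⟩ := CV_mob hM2 hG hr
    push_cast at hne hden
    rw [one_mul, add_zero] at hden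
    exact ⟨hne, hden⟩
  have h3d : ∀ r : ℚ, r.den.Coprime M → (r / 3 : ℚ).den.Coprime M := by
    intro r hr
    have h1 : (r / 3 : ℚ).den ∣ r.den * 3 := by
      have h2 := Rat.mul_den_dvd r (1 / 3)
      have h4 : (1 / 3 : ℚ).den = 3 := by norm_num
      rw [h4, mul_one_div] at h2
      exact h2
    exact Nat.Coprime.coprime_dvd_left h1 (Nat.Coprime.mul_left hr hM3.symm)
  have hval : ∀ (k : ℕ) (b' : Ideal (OO n t)), FB f b' → ∀ r : ℚ, r.den.Coprime M →
      io (etE f k m b' r) * fr b' = VU f k m b' (r / 3) := fun k b' hb' r hr =>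
    hP n t f k m b' hm hb' r (Nat.Coprime.coprime_dvd_right hM.nm hr)
  have h0c : (0 : ℚ).den.Coprime M := by simp
  have hfr : fr b ≠ 0 := (fra hR hm.g hb.g).2.1
  obtain ⟨v1, v2, v3⟩ := hV n t f M m b hm hb hM s hs
  have hsM : ∀ r : ℚ, r.den.Coprime M → (s * M : ℚ) * r + 1 ≠ 0 ∧
      (r / (s * M * r + 1) : ℚ).den.Coprime M := by
    intro r hr
    have h := hmob (s * M) (Dvd.intro_left s rfl) r hr
    push_cast at h
    exact h
  have hs3 : ∀ r : ℚ, r.den.Coprime M → (s * (3 * M) : ℚ) * r + 1 ≠ 0 ∧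
      (r / (s * (3 * M) * r + 1) : ℚ).den.Coprime M := by
    intro r hr
    have h := hmob (s * (3 * M)) ⟨s * 3, by ring⟩ r hr
    push_cast at h
    exact h
  have e0 : ∀ (k : ℕ) (b' : Ideal (OO n t)), FB f b' →
      io (etE f k m b' 0) * fr b' = VU f k m b' 0 := by
    intro k b' hb'
    have h := hval k b' hb' 0 h0c
    rwa [zero_div] at h
  refine ⟨fun r hr => ⟨(hsM r hr).1, (hs3 r hr).1, fun k hk => ?_⟩, fun r hr => ?_,
    fun b0 α α' hpp hM0 r hr => ?_⟩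
  · obtain ⟨h1, h2⟩ := hs3 r hr
    have h3 := v1 k hk r h1
    rw [← hval k b hb r hr, ← hval k b hb _ h2] at h3
    exact io_inj (mul_right_cancel₀ hfr h3)
  · obtain ⟨h1, h2⟩ := hsM r hr
    have h3 := v2 r h1
    rw [← hval 1 b hb r hr, ← hval 1 b hb _ h2, ← e0 1 b hb, ← C9_zU] at h3
    apply io_inj
    apply mul_right_cancel₀ hfr
    rw [map_sub, map_mul, map_sub]
    linear_combination h3
  · obtain ⟨h1, h2⟩ := hsM r hr
    have hr3 := h3d r hr
    obtain ⟨h4, h5⟩ := hsM (r / 3) hr3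
    have h3 := v3 b0 α α' hpp hM0 r h1 h4
    have hfr0 : fr b0 ≠ 0 := (fra hR hm.g hpp.fb0.g).2.1
    rw [← hval 2 b hb r hr, ← hval 2 b hb _ h2, ← e0 2 b hb, ← C9_zU, ← C9_zU,
      ← hval 2 b0 hpp.fb0 _ h5, ← hval 2 b0 hpp.fb0 _ hr3, ← e0 2 b0 hpp.fb0] at h3
    have hrO : io (rO b b0) = fr b0 / fr b :=
      (((tR1 hR n t).1 b (g30 hm.g hb.g)).2.2.2 b0 (g30 hm.g hpp.fb0.g)).1
    apply io_inj
    apply mul_right_cancel₀ hfr
    simp only [map_sub, map_mul, map_add, map_div₀, map_one, map_ofNat, io_toO, hrO]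
    rw [sub_mul, h3]
    field_simp

end Pool.Agent.DM.DU.C
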