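import Pool.Agent.Lib.DU.C.C17
import Pool.Agent.Lib.DM.C.Spec9
import Pool.Agent.Lib.DR.C.Spec9

/-!
# Part C for DU (`3` ramified): statements for `S_C9` (author helper33)

The general machine is `DS/C/Spec9.lean` with `p = q = 3`, `l = k = 3`, `l' = 9`, `D1 = D/3`, `s = s' = 1`. `zc k = zs^k`, `ζ = e(-N(m b)/3)`: `(1 0; M 1)` takes `zc 1` into `ζ zc 1`, and `zc 2` into
`ζ zc 2 + (2/3) (1 - ζ)`; `(1 0; 3 M 1)` acts trivially. The theta series of the constant function `1` for `b` is the one of `pp` (`dl`) for `b0`, `α' pp b = α b0` (`S_Pcu`).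
-/

set_option autoImplicit false

open scoped Pointwise Topology nonZeroDivisors
open Filter

noncomputable section

namespace Pool.Agent.DM.DU.C

open Pool.Agent.MuZ Pool.Agent.FW NumberField IsDedekindDomain Pool.Agent.DM Pool.Agent.DM.DU
open Pool.Agent.DI (io ofC io_inj exists_io io_ofC ofC_io VP MP UP TP ex)
open Pool.Agent.DN
open Pool.Agent.DN.C (rsum PerO Th)
open Pool.Agent.DS.C (ftp Ts Hs Pf h0 T0 Lg Hg s0)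

section Defs

variable {n t : ℕ}

/-- `zs(v)^k`. -/
def zc (k : ℕ) (v : OO n t) : ℂ := (zs v : ℂ) ^ k

/-- `v` is in `pp`. -/
def dl (v : OO n t) : ℂ := if zs v = 0 then 1 else 0

/-- `e(-s N/3)`. -/
def zt3 (s : ℤ) (N : ℕ) : ℂ := ex (-(s * N) / 3)

/-- `∑ zs(α)^k α⁻¹ T0_(α b)(z/3)` over `α ∈ tm`. -/
def VT (f k : ℕ) (m b : Ideal (OO n t)) (z : ℂ) : ℂ :=
  ∑ α ∈ tm n t f, zc k α * ((toC α)⁻¹ * T0 (3 * f) m (sp α * b) (z / 3))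

/-- `∑ zs(α)^k α⁻¹ h0_(α b)(x)` over `α ∈ tm`. -/
def VU (f k : ℕ) (m b : Ideal (OO n t)) (x : ℚ) : ℂ :=
  ∑ α ∈ tm n t f, zc k α * ((toC α)⁻¹ * h0 (3 * f) m (sp α * b) x)

end Defs

/-- (module DU/C/Zsx; uses DM.C.S_Tss, zO4) **The functions on `O/3` and the system `tm`.** `zs` depends only on `v` modulo `pp ⊇ 3 O`. (4) `IsG f 1 (tm n t f)`: `tmv n t f i j ≡ 1` modulo `f`, `≡ ⟨i, j⟩` modulo `3` (`f² ≡ 1`); every `v ≡ 1` modulo `f` is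
congruent modulo `3 f` to exactly one `tmv i j`, `i, j < 3`. (5) `S_Tss`. -/
def S_Zsx : Prop := ∀ (n t : ℕ) [Ram3 n t],
  (∀ k : ℕ, PerO 3 (zc (n := n) (t := t) k)) ∧
  (∀ (k : ℕ) (v : OO n t), 0 < k → ¬ Cop v 3 → zc k v = 0) ∧
  (∀ v : OO n t, dl v = 1 - zc 2 v) ∧
  ∀ f : ℕ, Fok f → IsG f 1 (tm n t f) ∧ ∀ k : ℕ, 0 < k → Ts 3 f (tm n t f) (zc k)

/-- (module DU/C/Lcu; uses S_Zsx, zO4) **The local identities.** `(β cjO u).im = β.im u.re - β.re u.im`; with `β = ⟨x0 + t y, y⟩`: `zs β = zs x0` and it is `y (u.re - t u.im) - x0 u.im`. The sum over `y` is `3` if `u ∈ pp` (`3 ∣ u.re - t u.im`), else `0`: for `u ∈ pp`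
`ftp 3 f (zc k) u = 3 zs(f)^k (e(u.im/3) + (-1)^k e(-u.im/3))` (`k = 1, 2`), `ftp 3 f 1 u = 9` if `3 ∣ u`, else `0`; for `u ∈ pp`: `3 ∣ u` iff `3 ∣ u.im`. For `u ∈ pp`: `4 Nm u = (2 re + t im)² + D im²`, so `Nm u/3 ≡ D' im²` modulo `3` (`D' = D/3`), `ex(-c Nm u/9) = 1` for `3 ∣ u`
and `= e(-c D'/3) = ζ` otherwise. (1) both sides are `0` for `3 ∣ u` (`k = 1`). (3) `3 ∣ u`: `6 = 6 ζ + (2/3)(1 - ζ) 9`; `u ∈ pp`, `3 ∤ u`: `-3 ζ = ζ (-3) + 0`. (4) `3 ∣ u`: `6 ζ⁻¹ + 6 (1 - ζ⁻¹) = 6`; `3 ∤ u`: `ζ⁻¹ (-3) ζ = -3`. (`zs(f)² = 1`.) -/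
def S_Lcu : Prop := ∀ (n t : ℕ) [Ram3 n t] (f c N : ℕ), Nat.Coprime f 3 →
  (3 ∣ c → ∀ k : ℕ, (k = 1 ∨ k = 2) → ∀ u : OO n t,
    ftp 3 f (zc k) u * ex (-(c * Nm u) / (9 : ℕ)) = ftp 3 f (zc k) u) ∧
  ((3 : ℤ) ∣ c * (Dk n t / 3 : ℕ) - N → ∀ u : OO n t,
    ftp 3 f (zc 1) u * ex (-(c * Nm u) / (9 : ℕ)) = ftp 3 f (fun v => zt3 1 N * zc 1 v) u ∧
    ftp 3 f (zc 2) u * ex (-(c * Nm u) / (9 : ℕ)) =
      ftp 3 f (fun v => zt3 1 N * zc 2 v + 2 / 3 * (1 - zt3 1 N) * 1) u ∧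
    ftp 3 f (fun v => zt3 (-1) N * zc 2 v + 2 / 3 * (1 - zt3 (-1) N) * 1) u *
      ex (-(c * Nm u) / (9 : ℕ)) = ftp 3 f (zc 2) u)

/-- (module DU/C/Lin; uses S_Bas or S_Lt for the summability) **Linearity of `Hg` in the function** (`g`, `g'` periodic modulo `p`; the terms of `Th` of a periodic function are summable at `z` with `Im z > 0`). -/
def S_Lin : Prop := ∀ (n t : ℕ) [SqN n t] (p l f : ℕ) (m b : Ideal (OO n t)) (s : ℤ)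
  (g g' : OO n t → ℂ) (x y z : ℂ), Pf p f m b → 0 < l → PerO p g → PerO p g' → 0 < z.im →
    Hg l f m b s (fun v => x * g v + y * g' v) z =
      x * Hg l f m b s g z + y * Hg l f m b s g' z

/-- (module DU/C/Hgu; uses DS.C.S_Ug, S_Lcu, S_Lin, S_Zsx) **The action of `(1 0; ± M 1)`, `(1 0; ± 3 M 1)` on the upper half plane.** `Hs 3 3 3 3 9 f M c D' 1 1 m b g g'` with `D' = Dk/3`, `D' f² NI(m b) c = M`: `Dk 9 = D' (3 * 9)`; `c D' = M NI(m b) = NI(m b)` modulo `3` (`M ≡ 1`, `f² ≡ NI(m b)² ≡ 1`).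
`s = 1`: (2) `g = zc 1`, `g' = ζ zc 1`; (3) `g = zc 2`, `g' = ζ zc 2 + (2/3)(1 - ζ) 1`; (1) the level `3 M`, `3 c`, `g = g' = zc k`. `s = -1`: `z = w/(M w + 1)` for `w = z/(-M z + 1)` (`Im w > 0`); (1), (2): the identity for `s = 1` at `w`; `ζ⁻¹ = zt3 (-1) N`; (3): `S_Ug` with
`g = ζ⁻¹ zc 2 + (2/3)(1 - ζ⁻¹) 1`, `g' = zc 2` at `w`. -/
def S_Hgu : Prop := ∀ (n t : ℕ) [Ram3 n t] (f M c : ℕ) (m b : Ideal (OO n t)), FM f m → FB f b →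
  M % 3 = 1 → Dk n t / 3 * f ^ 2 * NI (m * b) * c = M → ∀ s : ℤ, (s = 1 ∨ s = -1) →
  (∀ k : ℕ, (k = 1 ∨ k = 2) → ∃ C : ℂ, ∀ z : ℂ, 0 < z.im →
    Hg 3 f m b 1 (zc k) (z / (s * (3 * M) * z + 1)) = Hg 3 f m b 1 (zc k) z + C) ∧
  (∃ C : ℂ, ∀ z : ℂ, 0 < z.im → Hg 3 f m b 1 (zc 1) (z / (s * M * z + 1)) =
    zt3 s (NI (m * b)) * Hg 3 f m b 1 (zc 1) z + C) ∧
  ∃ C : ℂ, ∀ z : ℂ, 0 < z.im → Hg 3 f m b 1 (zc 2) (z / (s * M * z + 1)) =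
    zt3 s (NI (m * b)) * Hg 3 f m b 1 (zc 2) z +
      2 / 3 * (1 - zt3 s (NI (m * b))) * Hg 3 f m b 1 (fun _ => 1) z + C

/-- (module DU/C/Pcu; uses DR.C.S_Rix, S_O2, S_O3, S_O6, zO4) **Change of ideals.** `B = cjI b`, `B0 = cjI b0`, `ν = NI b`, `ν0 = NI b0` (prime to `3`), `b B = (ν)`. From `α' pp b = α b0`: `sp (α ν0) * B = sp (α' ν) * (pp * B0)`; norms: `Nm α ν0 = 3 Nm α' ν`. `S_Rix` with `A = α ν0`, `A' = α' ν`, `I = B`,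
`I' = pp * B0`, `g(v) = s0 f b0 1 v * dl(ν0 v)`, `g'(u) = s0 f b 1 u`, `w = z/3/ν0`: `Nm A/Nm A' = 3 ν0/ν`. For `A u = A' v`: `v - ν0 ∈ f B0` iff `u - ν ∈ f B`: `α ν0 (u - ν) = α' ν (v - ν0) + (α' - α) ν ν0`, `α`, `α'` (`PpR`: `Cop α' f`, `f ∣ α - α'`), `ν`, `ν0` are prime to `f`. `v ∈ B0 ∩ pp`
implies `v ∈ pp * B0` (`ν0` prime to `3`); `dl(ν0 v) = 1` iff `v ∈ pp`. (2) for `m b`, `m b0`: `m * (..)`; second term of `Hg` at `N m z`. -/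
def S_Pcu : Prop := ∀ (n t : ℕ) [Ram3 n t] (f : ℕ) (m b b0 : Ideal (OO n t)) (α α' : OO n t),
  FM f m → PpR f b b0 α α' →
    (∀ z : ℂ, Lg 3 f b0 1 dl z = toC α' / toC α * Lg 3 f b 1 (fun _ => 1) (3 * z)) ∧
    ∀ z : ℂ, Hg 3 f m b0 1 dl z = toC α' / toC α * Hg 3 f m b 1 (fun _ => 1) (3 * z)

/-- (module DU/C/Uu; uses S_Hgu, S_Pcu, DS.C.S_Etg, S_Zsx, S_Lin) **The identities for `VT`.** `VT f k m b z = 3 f Hg 3 f m b 1 (zc k) z` (`S_Etg`, `p = l = 3`). (3): let `B = Hg (zc 2)`, `F = Hg 1` for `b`, `B0`, `F0 = B0 + A0`, `A0 = Hg dl` for `b0` (`dl = 1 - zc 2`, `S_Lin`); `w = z/3`.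
`A0(w) = (toC α'/toC α) F(z)`. `B0(U w) = ζ0 B0(w) + (2/3)(1 - ζ0)(A0(w) + B0(w)) + C`: `A0(w) = (3 B0(U w) - (2 + ζ0) B0(w))/(2 (1 - ζ0)) + C`. Insert into `B(U z) = ζ B(z) + (2/3)(1 - ζ) F(z) + C`. `1 - ζ0 ≠ 0` (`NI(m b0)` is prime to `3`). -/
def S_Uu : Prop := ∀ (n t : ℕ) [Ram3 n t] (f M : ℕ) (m b : Ideal (OO n t)), FM f m → FB f b →
  IsLv f m {b} M → ∀ s : ℤ, (s = 1 ∨ s = -1) →
  (∀ k : ℕ, (k = 1 ∨ k = 2) → ∃ C : ℂ, ∀ z : ℂ, 0 < z.im →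
    VT f k m b (z / (s * (3 * M) * z + 1)) = VT f k m b z + C) ∧
  (∃ C : ℂ, ∀ z : ℂ, 0 < z.im → VT f 1 m b (z / (s * M * z + 1)) =
    zt3 s (NI (m * b)) * VT f 1 m b z + C) ∧
  ∀ (b0 : Ideal (OO n t)) (α α' : OO n t), PpR f b b0 α α' → IsLv f m {b0} M →
    ∃ C : ℂ, ∀ z : ℂ, 0 < z.im → VT f 2 m b (z / (s * M * z + 1)) =
      zt3 s (NI (m * b)) * VT f 2 m b z + toC α / (3 * toC α') *
        ((1 - zt3 s (NI (m * b))) / (1 - zt3 s (NI (m * b0)))) *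
        (3 * VT f 2 m b0 ((z / 3) / (s * M * (z / 3) + 1)) -
          (2 + zt3 s (NI (m * b0))) * VT f 2 m b0 (z / 3)) + C

/-- (module DU/C/Elz; uses DS.C.S_Lh, S_O6; edit of DS/C/Elm, `N` an integer) **The limits of the combinations over `T`.** -/
def S_Elz : Prop := ∀ (n t : ℕ) [SqN n t] (p l f : ℕ) (N : ℤ) (m b : Ideal (OO n t))
  (T : Finset (OO n t)) (g : OO n t → ℂ), 0 < l → DS.FMg (p * f) m → DS.FBg (p * f) b →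
  (∀ α ∈ T, (f : OO n t) ∣ α - 1 ∧ Cop α p) → ∀ r : ℚ, (N : ℚ) * r + 1 ≠ 0 →
    Tendsto (fun y : ℝ => ∑ α ∈ T, g α * ((toC α)⁻¹ *
        T0 (p * f) m (sp α * b) ((r + y * Complex.I) / (N * (r + y * Complex.I) + 1) / l)))
        (𝓝[>] 0)
      (𝓝 (∑ α ∈ T, g α * ((toC α)⁻¹ * h0 (p * f) m (sp α * b) (r / (N * r + 1) / l))))

/-- (module DU/C/Vu; uses S_Uu, S_Elz, S_Zsx) **The identities for the values.** The limits `z = r + i y` of `S_Uu` (`S_Elz` with `p = l = 3`, `T = tm n t f`, `N = ± M, ± 3 M, 0`; at `r/3` along `y/3`); `C` from `r = 0`. -/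
def S_Vu : Prop := ∀ (n t : ℕ) [Ram3 n t] (f M : ℕ) (m b : Ideal (OO n t)), FM f m → FB f b →
  IsLv f m {b} M → ∀ s : ℤ, (s = 1 ∨ s = -1) →
  (∀ k : ℕ, (k = 1 ∨ k = 2) → ∀ r : ℚ, (s * (3 * M) : ℚ) * r + 1 ≠ 0 →
    VU f k m b (r / (s * (3 * M) * r + 1) / 3) = VU f k m b (r / 3)) ∧
  (∀ r : ℚ, (s * M : ℚ) * r + 1 ≠ 0 → VU f 1 m b (r / (s * M * r + 1) / 3) - VU f 1 m b 0 =
    zt3 s (NI (m * b)) * (VU f 1 m b (r / 3) - VU f 1 m b 0)) ∧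
  ∀ (b0 : Ideal (OO n t)) (α α' : OO n t), PpR f b b0 α α' → IsLv f m {b0} M →
    ∀ r : ℚ, (s * M : ℚ) * r + 1 ≠ 0 → (s * M : ℚ) * (r / 3) + 1 ≠ 0 →
      VU f 2 m b (r / (s * M * r + 1) / 3) - VU f 2 m b 0 =
      zt3 s (NI (m * b)) * (VU f 2 m b (r / 3) - VU f 2 m b 0) + toC α / (3 * toC α') *
        ((1 - zt3 s (NI (m * b))) / (1 - zt3 s (NI (m * b0)))) *
        (3 * (VU f 2 m b0 ((r / 3) / (s * M * (r / 3) + 1) / 3) - VU f 2 m b0 0) -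
          (2 + zt3 s (NI (m * b0))) * (VU f 2 m b0 (r / 3 / 3) - VU f 2 m b0 0))

/-- (module DU/C/Rpu; uses DS.S_R1, DS.C.S_Lh, S_Zsx; compare DM/C/Rep) **`E_b` and `VU`.** For `α ∈ tm`: `fr (sp α * b) = toC α * fr b` (`hom1` of DM/E/BC), `io (etaM (3 f) m (α b) (r/3)) = hM .. = h0 ../(toC α fr b)`. -/
def S_Rpu : Prop := ∀ (n t : ℕ) [Ram3 n t] (f k : ℕ) (m b : Ideal (OO n t)), FM f m → FB f b →
  ∀ r : ℚ, r.den.Coprime (NI m) → io (etE f k m b r) * fr b = VU f k m b (r / 3)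

/-- (module DU/C/C9; uses S_Vu, S_Rpu, DS.S_R1) `DU.S_C9`: `den_ne` (DM/C/C17) for the matrices `(1 0; s M 1)`, `(1 0; 3 s M 1)`; `M` is prime to `3`, so the denominators of `r/3` etc. are prime to `M`, `N m ∣ M`. `ζ = zet 3 ^ (-s NI(m b))` (integer power), `io ζ = zt3 s (NI (m * b))`, primitive: `NI (m * b)` is prime to
`3`. `fr b ≠ 0`, `io (rO b b0) = fr b0/fr b`, `io (toO α) = toC α`. The theorem: `tC9 .. : DU.S_C9`. -/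
def M_C9 : Prop := DU.S_C9

end Pool.Agent.DM.DU.C
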